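import Pool.Agent.Helper34.PU.Defs

/-!
MP_8060f4_co : the case Δ = 2 of the covers.
-/

set_option autoImplicit false

open Finset Function
open scoped Classical

namespace Pool.Agent.Helper34.PU

/-- packet RC2 -/
def RC2Stmt : Prop := ∀ η : ℝ, 0 < η → ∃ K : ℕ, ∀ (V : Type) [Fintype V] (H : SimpleGraph V),
  MaxDeg H 2 → ∀ σ : ℝ, 0 < σ → σ ≤ 1 → RealCover H K σ η

/-- at most two paths of length `K` start at `v` (packet P2) -/
def P2Stmt : Prop := ∀ (V : Type) [Fintype V] (H : SimpleGraph V), MaxDeg H 2 →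
  ∀ (K : ℕ) (v : V), ∃ S : Finset (List V), S.card ≤ 2 ∧
    ∀ l : List V, l.Nodup → l.length = K + 2 → l.head? = some v → l.IsChain H.Adj → l ∈ S

end Pool.Agent.Helper34.PU
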