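import Pool.Agent.Helper34.PU.Goals
import Pool.Agent.Helper34.PU.Goals2

set_option autoImplicit false

open Finset Function
open scoped Classical

namespace Pool.Agent.Helper34.PU

/-- covers of graphs of maximum degree 2 -/
theorem cover2 (h1 : RC2Stmt) (h2 : IntStmt) : ∀ ε : ℝ, 0 < ε → ∃ β s K : ℕ, 0 < s ∧ s < β ∧
    0 < K ∧ (2 / ((2 : ℕ) : ℝ) - ε) * β ≤ s ∧
    ∀ (n : ℕ) (H : SimpleGraph (Fin n)), MaxDeg H 2 → HasCover H β s K := by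
  intro ε0 hε0
  obtain ⟨ε, hε, hε1, hεε⟩ : ∃ ε : ℝ, 0 < ε ∧ ε ≤ 1 ∧ ε ≤ ε0 :=
    ⟨min ε0 1, lt_min hε0 one_pos, min_le_right _ _, min_le_left _ _⟩
  set σ : ℝ := 1 - ε / 4 with hσ
  have hσ0 : 0 < σ := by linarith
  have hσ1 : σ < 1 := by linarith
  set η : ℝ := ε / 8 with hη
  have hη0 : 0 < η := by positivity
  obtain ⟨K, hK⟩ := h1 η hη0
  set C : ℕ := 2 ^ ((2 + 1) ^ K) with hC
  obtain ⟨Mw, hMw⟩ := exists_nat_gt ((2 * (C + 1) + 2 : ℝ) / (ε / 4) + 2)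
  have hC0 : (0:ℝ) ≤ C := by positivity
  have hMw2 : (2:ℝ) < Mw := by
    have : 0 ≤ (2 * (C + 1) + 2 : ℝ) / (ε / 4) := by positivity
    linarith
  have hMw3 : (2 * (C + 1) + 2 : ℝ) ≤ Mw * (ε / 4) := by
    have : (2 * (C + 1) + 2 : ℝ) / (ε / 4) ≤ Mw := by linarith
    rwa [div_le_iff₀ (by positivity)] at this
  have hM1 : 1 ≤ Mw := by
    have : (1:ℝ) < Mw := by linarith
    have : 1 < Mw := by exact_mod_cast this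
    omega
  have hs0 : 0 < ⌊(Mw : ℝ) * σ⌋₊ := by
    apply Nat.floor_pos.2
    nlinarith
  have hsM : ⌊(Mw : ℝ) * σ⌋₊ ≤ Mw := by
    apply Nat.floor_le_of_le
    nlinarith
  refine ⟨Mw + 2 * (⌊(Mw : ℝ) * η⌋₊ + C + 1) + 1, ⌊(Mw : ℝ) * σ⌋₊, max K 2, hs0, by omega,
    lt_of_lt_of_le (by norm_num) (le_max_right K 2), ?_, ?_⟩
  · have hfl : ((⌊(Mw : ℝ) * η⌋₊ : ℕ) : ℝ) ≤ Mw * η := Nat.floor_le (by positivity)
    have hs : (Mw : ℝ) * σ - 1 ≤ ((⌊(Mw : ℝ) * σ⌋₊ : ℕ) : ℝ) := by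
      have := Nat.lt_floor_add_one ((Mw : ℝ) * σ)
      linarith
    have hb : (0:ℝ) ≤ ((Mw + 2 * (⌊(Mw : ℝ) * η⌋₊ + C + 1) + 1 : ℕ) : ℝ) := by positivity
    have e0 : (2 / ((2 : ℕ) : ℝ) - ε0) * ((Mw + 2 * (⌊(Mw : ℝ) * η⌋₊ + C + 1) + 1 : ℕ) : ℝ) ≤
        (1 - ε) * ((Mw + 2 * (⌊(Mw : ℝ) * η⌋₊ + C + 1) + 1 : ℕ) : ℝ) := by
      apply mul_le_mul_of_nonneg_right _ hb
      push_cast
      linarith
    refine le_trans e0 ?_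
    have e1 : ((Mw + 2 * (⌊(Mw : ℝ) * η⌋₊ + C + 1) + 1 : ℕ) : ℝ) ≤
        Mw + 2 * (Mw * η) + (2 * (C + 1) + 1) := by
      push_cast; linarith
    have e2 : (1 - ε) * ((Mw + 2 * (⌊(Mw : ℝ) * η⌋₊ + C + 1) + 1 : ℕ) : ℝ) ≤
        (1 - ε) * (Mw + 2 * (Mw * η) + (2 * (C + 1) + 1)) :=
      mul_le_mul_of_nonneg_left e1 (by linarith)
    refine le_trans e2 (le_trans ?_ hs)
    have e3 : (Mw:ℝ) * σ = Mw - Mw * (ε / 4) := by rw [hσ]; ring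
    rw [e3]
    have e4 : (Mw : ℝ) * η = Mw * (ε / 4) / 2 := by rw [hη]; ring
    rw [e4]
    have e5 : 0 ≤ (Mw : ℝ) * (ε / 4) := by positivity
    nlinarith
  · intro n H hH
    exact h2 2 K Mw σ η hσ0 hσ1 hη0.le hM1 (Fin n) H hH (hK (Fin n) H hH σ hσ0 hσ1.le)

end Pool.Agent.Helper34.PU
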