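import Pool.Agent.Helper34.PU.Goals

set_option autoImplicit false

open Finset Function
open scoped Classical

namespace Pool.Agent.Helper34.PU

theorem avg_mono' {α : Type} (A : Finset α) (f g : α → ℝ) (h : ∀ i ∈ A, f i ≤ g i) :
    avg A f ≤ avg A g := by
  unfold avg
  exact div_le_div_of_nonneg_right (Finset.sum_le_sum h) (by positivity)

theorem avg_sub' {α : Type} (A : Finset α) (f g : α → ℝ) :
    avg A f - avg A g = avg A (fun i => f i - g i) := by
  unfold avg
  rw [Finset.sum_sub_distrib]; ring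

theorem avg_congr' {α : Type} (A : Finset α) (f g : α → ℝ) (h : ∀ i ∈ A, f i = g i) :
    avg A f = avg A g := by
  unfold avg
  rw [Finset.sum_congr rfl h]

theorem avg_sum' {α ι : Type} (A : Finset α) (S : Finset ι) (f : ι → α → ℝ) :
    avg A (fun i => ∑ e ∈ S, f e i) = ∑ e ∈ S, avg A (f e) := by
  unfold avg
  rw [Finset.sum_comm, Finset.sum_div]

theorem avg_const' {α : Type} (A : Finset α) (hA : A.Nonempty) (c : ℝ) :
    avg A (fun _ => c) = c := by
  unfold avg
  rw [Finset.sum_const, nsmul_eq_mul]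
  have : (A.card : ℝ) ≠ 0 := by
    have := hA.card_pos
    positivity
  field_simp

theorem avg_nonneg' {α : Type} (A : Finset α) (f : α → ℝ) (h : ∀ i ∈ A, 0 ≤ f i) :
    0 ≤ avg A f := by
  unfold avg
  exact div_nonneg (Finset.sum_nonneg h) (by positivity)

theorem avg_div' {α : Type} (A : Finset α) (f : α → ℝ) (c : ℝ) :
    avg A (fun i => f i / c) = avg A f / c := by
  unfold avg
  rw [← Finset.sum_div]; ring

theorem avg_add' {α : Type} (A : Finset α) (f g : α → ℝ) :
    avg A (fun i => f i + g i) = avg A f + avg A g := by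
  unfold avg
  rw [Finset.sum_add_distrib]; ring

theorem box4_nonneg' {α : Type} (A B : Finset α) (F : α → α → ℝ) : 0 ≤ box4 A B F := by
  unfold box4
  exact avg_nonneg' _ _ (fun i _ => avg_nonneg' _ _ (fun j _ => by positivity))

theorem box4_congr' {α : Type} (A B : Finset α) (F G : α → α → ℝ)
    (h : ∀ i ∈ A, ∀ j ∈ B, F i j = G i j) : box4 A B F = box4 A B G := by
  unfold box4
  refine avg_congr' _ _ _ (fun i hi => avg_congr' _ _ _ (fun i' hi' => ?_))
  rw [avg_congr' B _ _ (fun j hj => by rw [h i hi j hj, h i' hi' j hj])]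

theorem piF_eq {ι α : Type} [Fintype ι] (i1 i2 : DecidableEq ι) (A : ι → Finset α) :
    @Fintype.piFinset ι i1 _ (fun _ => α) A = @Fintype.piFinset ι i2 _ (fun _ => α) A := by
  rw [Subsingleton.elim i1 i2]

theorem tangent (g t : ℝ) (hg : 0 ≤ g) (ht : 0 < t) :
    g ^ ((1 : ℝ) / 4) ≤ 3 * t / 4 + g / (4 * t ^ 3) := by
  set u := g ^ ((1 : ℝ) / 4) with hu
  have hu0 : 0 ≤ u := by positivity
  have hgu : g = u ^ 4 := by
    rw [hu, ← Real.rpow_natCast, ← Real.rpow_mul hg]; norm_num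
  rw [hgu]
  have h1 : u ≤ 3 * t / 4 + u ^ 4 / (4 * t ^ 3) ↔ 4 * t ^ 3 * u ≤ 3 * t ^ 4 + u ^ 4 := by
    have h3 : 0 < 4 * t ^ 3 := by positivity
    have e : 3 * t / 4 + u ^ 4 / (4 * t ^ 3) = (3 * t ^ 4 + u ^ 4) / (4 * t ^ 3) := by
      field_simp
    rw [e, le_div_iff₀ h3, mul_comm]
  rw [h1]
  nlinarith [mul_nonneg (sq_nonneg (u - t)) (by positivity : 0 ≤ u ^ 2 + 2 * u * t + 3 * t ^ 2)]

theorem cell_mem_eq {T D N : ℕ} (x : Fin N → Pt T D) (J : Finset (Fin T)) (a : Pt T D) (i : Fin N)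
    (hi : i ∈ cell x J a) : cell x J (x i) = cell x J a := by
  simp only [cell, mem_filter, mem_univ, true_and] at hi
  ext j
  simp only [cell, mem_filter, mem_univ, true_and]
  constructor
  · intro h t ht; rw [h t ht, hi t ht]
  · intro h t ht; rw [h t ht, hi t ht]

theorem cell_dep {T D N : ℕ} (x : Fin N → Pt T D) (J : Finset (Fin T)) (a b : Pt T D)
    (h : ∀ t ∈ J, a t = b t) : cell x J a = cell x J b := by
  ext j
  simp only [cell, mem_filter, mem_univ, true_and]
  constructor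
  · intro h' t ht; rw [h' t ht, h t ht]
  · intro h' t ht; rw [h' t ht, h t ht]

theorem Wc_nonneg' {α : Type} {L r : ℕ} (B : Finset α) (l1 l2 : α → Fin L)
    (col : α → α → Fin r) (c : Fin r) (a b : Fin L) : 0 ≤ Wc B l1 l2 col c a b := by
  unfold Wc
  split_ifs
  · exact avg_nonneg' _ _ (fun i _ => avg_nonneg' _ _ (fun j _ => by split_ifs <;> norm_num))
  · positivity

theorem Wc_sum' {α : Type} {L r : ℕ} (hr : 1 ≤ r) (B : Finset α) (l1 l2 : α → Fin L)
    (col : α → α → Fin r) (a b : Fin L) : ∑ c, Wc B l1 l2 col c a b = 1 := by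
  unfold Wc
  by_cases h : (B.filter (fun i => l1 i = a)).Nonempty ∧ (B.filter (fun j => l2 j = b)).Nonempty
  · simp only [if_pos h]
    rw [← avg_sum']
    rw [avg_congr' _ _ (fun _ => (1:ℝ))]
    · exact avg_const' _ h.1 1
    · intro i _
      rw [← avg_sum']
      rw [avg_congr' _ _ (fun _ => (1:ℝ))]
      · exact avg_const' _ h.2 1
      · intro j _
        simp
  · simp only [if_neg h]
    rw [Finset.sum_const, nsmul_eq_mul]
    simp only [card_univ, Fintype.card_fin]
    have : (r:ℝ) ≠ 0 := by positivity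
    field_simp

theorem Wc_congr' {α : Type} {L r : ℕ} (B : Finset α) (l1 l2 m1 m2 : α → Fin L)
    (col : α → α → Fin r) (c : Fin r) (a b : Fin L) (h1 : ∀ i ∈ B, l1 i = m1 i)
    (h2 : ∀ i ∈ B, l2 i = m2 i) : Wc B l1 l2 col c a b = Wc B m1 m2 col c a b := by
  unfold Wc
  have e1 : B.filter (fun i => l1 i = a) = B.filter (fun i => m1 i = a) := by
    apply Finset.filter_congr; intro i hi; rw [h1 i hi]
  have e2 : B.filter (fun i => l2 i = b) = B.filter (fun i => m2 i = b) := by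
    apply Finset.filter_congr; intro i hi; rw [h2 i hi]
  rw [e1, e2]

theorem dens (h1 : RamiStmt) (h2 : WRStmt) (h3 : KappaStmt) (h4 : CntStmt) (h5 : VirtStmt) :
    DensStmt := by
  intro β s T0 r hs hsβ hr
  set h := Fintype.card (Idx T0 β) with hh
  obtain ⟨Q, k, hQ, hk, hβk, hRam⟩ := h1 r s T0 h β hr
  have hrR : (1:ℝ) ≤ r := by exact_mod_cast hr
  have hQR : (1:ℝ) ≤ Q := by exact_mod_cast hQ
  have hkR : (1:ℝ) ≤ k := by exact_mod_cast hk
  set δR : ℝ := 1 / (2 * (r : ℝ) * (Q : ℝ) ^ h * (k : ℝ) ^ T0) with hδR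
  have hδRpos : 0 < δR := by positivity
  set t : ℝ := δR / (2 * ((h : ℝ) ^ 2 + 1)) with ht
  have htpos : 0 < t := by positivity
  set ε1 : ℝ := t ^ 4 with hε1
  have hε1pos : 0 < ε1 := by positivity
  set C0 : ℝ := (2 : ℝ) ^ (3 * k) * Q ^ 2 * r with hC0
  have hC0pos : 0 < C0 := by positivity
  set ε' : ℝ := ε1 / (8 * C0) with hε'
  have hε'pos : 0 < ε' := by positivity
  obtain ⟨L, hL, hWR⟩ := h2 Q r ε' hr hε'pos
  obtain ⟨γ, hγ, hV⟩ := h5 r s β T0 Q k L hr hsβ hQ hk hβk hL hRam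
  set ρ : ℝ := ε' / 2 with hρ
  have hρpos : 0 < ρ := by positivity
  obtain ⟨M, hM⟩ := exists_nat_gt (max (2 / ρ ^ 2)
    (max 1 (32 * ((Q : ℝ) * 2 ^ k * (L : ℝ) ^ (2 ^ k)) / γ ^ 2)))
  have hM1 : 2 / ρ ^ 2 < M := lt_of_le_of_lt (le_max_left _ _) hM
  have hM2 : (1:ℝ) < M := lt_of_le_of_lt (le_trans (le_max_left _ _) (le_max_right _ _)) hM
  have hM3 : 32 * ((Q : ℝ) * 2 ^ k * (L : ℝ) ^ (2 ^ k)) / γ ^ 2 < M :=
    lt_of_le_of_lt (le_trans (le_max_right _ _) (le_max_right _ _)) hM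
  have hMpos : (0:ℝ) < M := by linarith
  have hMN : 1 ≤ M := by
    have : (0:ℝ) < M := hMpos
    have : 0 < M := by exact_mod_cast this
    exact this
  obtain ⟨η, hη, hη1, hη2, hη3, hη4, hη5⟩ : ∃ η : ℝ, 0 < η ∧ η ≤ 1 / 2 ∧ η ≤ γ ^ 2 / 8 ∧ η ≤ γ ∧
      η ≤ ρ ∧ η ≤ ρ ^ 2 / 8 := by
    refine ⟨min (1 / 2) (min (γ ^ 2 / 8) (min γ (min ρ (ρ ^ 2 / 8)))), ?_, ?_, ?_, ?_, ?_, ?_⟩
    · positivity
    · exact min_le_left _ _
    · exact le_trans (min_le_right _ _) (min_le_left _ _)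
    · exact le_trans (min_le_right _ _) (le_trans (min_le_right _ _) (min_le_left _ _))
    · exact le_trans (min_le_right _ _) (le_trans (min_le_right _ _)
        (le_trans (min_le_right _ _) (min_le_left _ _)))
    · exact le_trans (min_le_right _ _) (le_trans (min_le_right _ _)
        (le_trans (min_le_right _ _) (min_le_right _ _)))
  set T := 3 * M * k with hT
  have hkT : k ≤ T := by
    rw [hT]; nlinarith
  refine ⟨T, Q, δR / 2, η, by positivity, hη, hη1, ?_⟩
  intro D x hD hPR hCB f hf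
  have hNpos : 0 < D ^ (β + 1) := by positivity
  -- monotonicity of PR
  have hPRm : ∀ (k' : ℕ) (η' : ℝ), k' ≤ 2 * T → η ≤ η' → PR β k' η' x := by
    intro k' η' hk' hη' J0 K a F hJ hJ0 hK hF
    exact le_trans (hPR J0 K a F hJ hJ0 (le_trans hK hk') hF) hη'
  have hne : ∀ (J : Finset (Fin T)) (a : Pt T D), J.card ≤ β → (cell x J a).Nonempty := by
    intro J a hJ
    have h6 := hCB J a hJ
    rw [abs_le] at h6
    have h7 : (0:ℝ) < (D:ℝ) ^ (β + 1 - J.card) := by
      have : (0:ℝ) < D := by exact_mod_cast hD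
      positivity
    have h8 : (0:ℝ) < (cell x J a).card := by nlinarith [h6.1]
    exact Finset.card_pos.mp (by exact_mod_cast h8)
  -- labels
  have hch : ∀ B : Finset (Fin (D ^ (β + 1))), ∃ ℓ : Fin Q → Fin (D ^ (β + 1)) → Fin L, ∀ p q c,
      box4 B B (fun i j => (if f (p, i) (q, j) = c then 1 else 0) -
        Wc B (ℓ p) (ℓ q) (fun i j => f (p, i) (q, j)) c (ℓ p i) (ℓ q j)) ≤ ε' := fun B =>
    hWR (Fin (D ^ (β + 1))) B (fun p q i j => f (p, i) (q, j))
  choose ℓ hℓ using hch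
  set lab : Fin Q → Finset (Fin T) → Fin (D ^ (β + 1)) → Fin L :=
    fun q U i => ℓ (cell x U (x i)) q i with hlab
  have hlabeq : ∀ (q : Fin Q) (U : Finset (Fin T)) (φ : Pt T D), ∀ i ∈ cell x U φ,
      lab q U i = ℓ (cell x U φ) q i := by
    intro q U φ i hi
    simp only [hlab]
    rw [cell_mem_eq x U φ i hi]
  have hbox : ∀ (U : Finset (Fin T)) (a : Pt T D) (p q : Fin Q) (c : Fin r), U.card = s →
      box4 (cell x U a) (cell x U a) (Ferr x f lab U a p q c) ≤ ε' := by
    intro U a p q c _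
    refine le_trans (le_of_eq ?_) (hℓ (cell x U a) p q c)
    refine box4_congr' _ _ _ _ (fun i hi j hj => ?_)
    unfold Ferr
    rw [hlabeq p U a i hi, hlabeq q U a j hj]
    rw [Wc_congr' (cell x U a) (lab p U) (lab q U) (ℓ (cell x U a) p) (ℓ (cell x U a) q) _ c _ _
      (hlabeq p U a) (hlabeq q U a)]
  have hsq : √(1 / (M : ℝ) + 4 * η) ≤ ρ := by
    rw [Real.sqrt_le_left hρpos.le]
    have : 1 / (M : ℝ) ≤ ρ ^ 2 / 2 := by
      rw [div_le_div_iff₀ hMpos (by norm_num)]
      rw [div_lt_iff₀ (by positivity)] at hM1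
      linarith
    linarith
  have hsmall : (2 : ℝ) ^ (3 * k) * Q ^ 2 * r * ((ε' + 2 * (√(1 / M + 4 * η) + η)) / ε1) +
      (Q : ℝ) * 2 ^ k * (L : ℝ) ^ (2 ^ k) * (8 / (γ ^ 2 * M)) < 1 := by
    have h6 : (2 : ℝ) ^ (3 * k) * Q ^ 2 * r * ((ε' + 2 * (√(1 / M + 4 * η) + η)) / ε1) ≤ 3 / 8 := by
      rw [← hC0]
      have : ε' + 2 * (√(1 / M + 4 * η) + η) ≤ 3 * ε' := by
        have : ρ = ε' / 2 := hρ
        linarith
      calc C0 * ((ε' + 2 * (√(1 / M + 4 * η) + η)) / ε1) ≤ C0 * ((3 * ε') / ε1) := by gcongr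
        _ = 3 / 8 := by rw [hε']; field_simp
    have h7 : (Q : ℝ) * 2 ^ k * (L : ℝ) ^ (2 ^ k) * (8 / (γ ^ 2 * M)) ≤ 1 / 4 := by
      rw [div_lt_iff₀ (by positivity)] at hM3
      have e : (Q : ℝ) * 2 ^ k * (L : ℝ) ^ (2 ^ k) * (8 / (γ ^ 2 * M)) =
        (8 * ((Q : ℝ) * 2 ^ k * (L : ℝ) ^ (2 ^ k))) / (γ ^ 2 * M) := by ring
      rw [e, div_le_iff₀ (by positivity)]
      linarith
    linarith
  obtain ⟨κ, hκ, hkb, hkx⟩ := h3 β s k Q r L M T D (D ^ (β + 1)) η ε' ε1 γ x f lab hsβ.le hβk hMN hr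
    le_rfl hNpos hη.le (by linarith) hε'pos.le hε1pos hγ hη2
    (hPRm (2 * k) η (by omega) le_rfl) hne hbox hsmall
  set W : Fin r → Fin Q → Fin Q → Finset (Fin k) → Pt T D → Fin L → Fin L → ℝ :=
    fun c p q U φ a b => Wc (cell x (U.image κ) φ) (lab p (U.image κ)) (lab q (U.image κ))
      (fun i j => f (p, i) (q, j)) c a b with hW
  have hW0 : ∀ c p q U φ a b, 0 ≤ W c p q U φ a b := fun c p q U φ a b => Wc_nonneg' _ _ _ _ _ _ _
  have hWs : ∀ p q U φ a b, ∑ c, W c p q U φ a b = 1 := fun p q U φ a b => Wc_sum' hr _ _ _ _ _ _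
  have hW1 : ∀ c p q U φ a b, W c p q U φ a b ≤ 1 := by
    intro c p q U φ a b
    rw [← hWs p q U φ a b]
    exact Finset.single_le_sum (f := fun c => W c p q U φ a b) (fun i _ => hW0 i p q U φ a b)
      (mem_univ c)
  have hWd : ∀ c p q U a b, Dep (U.image κ) (fun φ => W c p q U φ a b) := by
    intro c p q U a b φ ψ hφψ
    simp only [hW]
    rw [cell_dep x (U.image κ) φ ψ hφψ]
  obtain ⟨c, j0, q, hj0, hq, hdW⟩ := hV T D (D ^ (β + 1)) x κ (fun q U => lab q (U.image κ)) W
    hNpos hD hκ (hPRm k γ (by omega) hη3) hne hkx hW0 hWs hWd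
  refine ⟨c, κ ∘ j0, q, hκ.comp hj0.injective, hq, ?_⟩
  -- comparison
  set U : Idx T0 β × Idx T0 β → Finset (Fin k) := fun P => (P.1.1 ∩ P.2.1).image j0 with hU
  set bx : Idx T0 β × Idx T0 β → Pt T D → ℝ := fun P φ =>
    box4 (cell x ((P.1.1.image j0).image κ) φ) (cell x ((P.2.1.image j0).image κ) φ)
      (Ferr x f lab ((U P).image κ) φ (q P.1) (q P.2) c) with hbx
  have hbxavg : ∀ P ∈ prs s q, avg univ (bx P) ≤ ε1 := by
    intro P hP
    simp only [prs, mem_filter, mem_univ, true_and] at hP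
    obtain ⟨-, hPs⟩ := hP
    have hinj := hj0.injective
    have d1 : Disjoint (P.1.1 ∩ P.2.1) (P.1.1 \ P.2.1) := by
      rw [Finset.disjoint_left]; intro a ha hb
      simp only [mem_inter, mem_sdiff] at ha hb; exact hb.2 ha.2
    have d2 : Disjoint (P.1.1 ∩ P.2.1) (P.2.1 \ P.1.1) := by
      rw [Finset.disjoint_left]; intro a ha hb
      simp only [mem_inter, mem_sdiff] at ha hb; exact hb.2 ha.1
    have d3 : Disjoint (P.1.1 \ P.2.1) (P.2.1 \ P.1.1) := by
      rw [Finset.disjoint_left]; intro a ha hb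
      simp only [mem_sdiff] at ha hb; exact hb.2 ha.1
    have c1 : (P.1.1 \ P.2.1).card = β - s := by
      have := Finset.card_sdiff_add_card_inter P.1.1 P.2.1
      have hc := P.1.2
      omega
    have c2 : (P.2.1 \ P.1.1).card = β - s := by
      have := Finset.card_sdiff_add_card_inter P.2.1 P.1.1
      rw [Finset.inter_comm] at this
      have hc := P.2.2
      omega
    have key := hkb (U P) ((P.1.1 \ P.2.1).image j0) ((P.2.1 \ P.1.1).image j0) (q P.1) (q P.2) c
      (by rw [hU]; rw [card_image_of_injective _ hinj]; exact hPs)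
      (by rw [card_image_of_injective _ hinj]; exact c1)
      (by rw [card_image_of_injective _ hinj]; exact c2)
      ((disjoint_image hinj).mpr d1) ((disjoint_image hinj).mpr d2) ((disjoint_image hinj).mpr d3)
    have u1 : U P ∪ (P.1.1 \ P.2.1).image j0 = P.1.1.image j0 := by
      rw [hU]; simp only; rw [← image_union]; congr 1
      ext a; simp only [mem_union, mem_inter, mem_sdiff]; tauto
    have u2 : U P ∪ (P.2.1 \ P.1.1).image j0 = P.2.1.image j0 := by
      rw [hU]; simp only; rw [← image_union]; congr 1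
      ext a; simp only [mem_union, mem_inter, mem_sdiff]; tauto
    rw [u1, u2] at key
    exact key
  have hcmp : DensW s x κ (fun q U => lab q (U.image κ)) W c j0 q - Dens s x f c (κ ∘ j0) q ≤
      δR / 2 := by
    unfold DensW Dens
    rw [avg_sub']
    have hφ : ∀ φ : Pt T D, avg (Fintype.piFinset (fun I : Idx T0 β =>
        cell x ((I.1.image j0).image κ) φ)) (fun y =>
        ∏ P ∈ prs s q, W c (q P.1) (q P.2) ((P.1.1 ∩ P.2.1).image j0) φ
          (lab (q P.1) (((P.1.1 ∩ P.2.1).image j0).image κ) (y P.1))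
          (lab (q P.2) (((P.1.1 ∩ P.2.1).image j0).image κ) (y P.2))) -
        avg (Fintype.piFinset (fun I : Idx T0 β => cell x (I.1.image (κ ∘ j0)) φ)) (fun y =>
          ∏ P ∈ prs s q, if f (q P.1, y P.1) (q P.2, y P.2) = c then 1 else 0) ≤
        ∑ P ∈ prs s q, (3 * t / 4 + bx P φ / (4 * t ^ 3)) := by
      intro φ
      have hcnt := h4 (Idx T0 β) (Fin (D ^ (β + 1)))
        (fun I : Idx T0 β => cell x ((I.1.image j0).image κ) φ) (prs s q)
        (fun e y z => if f (q e.1, y) (q e.2, z) = c then 1 else 0)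
        (fun e y z => W c (q e.1) (q e.2) (U e) φ (lab (q e.1) ((U e).image κ) y)
          (lab (q e.2) ((U e).image κ) z))
        (fun I => hne _ _ (le_trans (card_image_le.trans card_image_le) (le_of_eq I.2)))
        (by
          intro e he
          simp only [prs, mem_filter, mem_univ, true_and] at he ⊢
          refine ⟨fun h => ?_, fun h => ?_⟩
          · rw [h] at he; exact lt_irrefl _ he.1
          · exact lt_asymm he.1 h.1)
        (by
          intro e y z
          refine ⟨by split_ifs <;> norm_num, by split_ifs <;> norm_num, hW0 _ _ _ _ _ _ _,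
            hW1 _ _ _ _ _ _ _⟩)
      have e1 : ∀ I : Idx T0 β, I.1.image (κ ∘ j0) = (I.1.image j0).image κ := by
        intro I; rw [image_image]
      simp only [e1]
      have hle : ∑ e ∈ prs s q, (box4 (cell x ((e.1.1.image j0).image κ) φ)
          (cell x ((e.2.1.image j0).image κ) φ) (fun y z =>
            (if f (q e.1, y) (q e.2, z) = c then (1:ℝ) else 0) -
            W c (q e.1) (q e.2) (U e) φ (lab (q e.1) ((U e).image κ) y)
          (lab (q e.2) ((U e).image κ) z))) ^ ((1 : ℝ) / 4) ≤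
          ∑ P ∈ prs s q, (3 * t / 4 + bx P φ / (4 * t ^ 3)) := by
        refine Finset.sum_le_sum (fun P _ => ?_)
        exact tangent _ t (box4_nonneg' _ _ _) htpos
      rw [abs_sub_comm] at hcnt
      rw [piF_eq (fun a b => Classical.propDecidable (a = b))
        (fun a b => Subtype.instDecidableEq a b)] at hcnt
      exact le_trans (le_trans (le_abs_self _) hcnt) hle
    refine le_trans (avg_mono' _ _ _ (fun φ _ => hφ φ)) ?_
    rw [avg_sum']
    have hPtne : (univ : Finset (Pt T D)).Nonempty := by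
      have : Nonempty (Pt T D) := ⟨fun _ => ⟨0, hD⟩⟩
      exact univ_nonempty
    have hterm : ∀ P ∈ prs s q, avg univ (fun φ => 3 * t / 4 + bx P φ / (4 * t ^ 3)) ≤ t := by
      intro P hP
      rw [avg_add', avg_const' _ hPtne, avg_div']
      have h6 := hbxavg P hP
      have h7 : avg univ (bx P) / (4 * t ^ 3) ≤ ε1 / (4 * t ^ 3) := by gcongr
      have h8 : ε1 / (4 * t ^ 3) = t / 4 := by rw [hε1]; field_simp
      have h9 : avg univ (fun i => bx P i) = avg univ (bx P) := rfl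
      linarith
    refine le_trans (Finset.sum_le_sum hterm) ?_
    rw [Finset.sum_const, nsmul_eq_mul]
    have hcard : ((prs s q).card : ℝ) ≤ (h : ℝ) ^ 2 := by
      have : (prs s q).card ≤ h ^ 2 := by
        refine le_trans (card_filter_le _ _) ?_
        rw [card_univ, Fintype.card_prod, ← hh, sq]
      exact_mod_cast this
    calc ((prs s q).card : ℝ) * t ≤ ((h : ℝ) ^ 2 + 1) * t := by
          apply mul_le_mul_of_nonneg_right _ htpos.le
          linarith
      _ = δR / 2 := by rw [ht]; field_simp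
  linarith

end Pool.Agent.Helper34.PU
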