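import Pool.Agent.Helper34.PU.Goals

set_option autoImplicit false

open Finset Function
open scoped Classical

namespace Pool.Agent.Helper34.PU

/-- `t` copies of a cover -/
theorem cover_scale {V : Type} [Fintype V] (H : SimpleGraph V) (β s K t : ℕ) (ht : 1 ≤ t)
    (h : HasCover H β s K) : HasCover H (t * β) (t * s) K := by
  obtain ⟨ι, hι, X, hK, hb, hs, h1⟩ := h
  refine ⟨Fin t × ι, inferInstance, fun p => X p.2, fun j => hK j.2, fun v => ?_, fun u v huv => ?_,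
    fun v => ?_⟩
  · have : (univ.filter (fun j : Fin t × ι => v ∈ X j.2)) =
        (univ : Finset (Fin t)) ×ˢ (univ.filter (fun j : ι => v ∈ X j)) := by
      ext p; simp
    rw [this, card_product, hb]; simp
  · have : (univ.filter (fun j : Fin t × ι => u ∈ X j.2 ∧ v ∈ X j.2)) =
        (univ : Finset (Fin t)) ×ˢ (univ.filter (fun j : ι => u ∈ X j ∧ v ∈ X j)) := by
      ext p; simp
    rw [this, card_product, hs u v huv]; simp
  · obtain ⟨j, hj⟩ := h1 v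
    exact ⟨(⟨0, ht⟩, j), hj⟩

/-- the host graph -/
def hostG {T D N Q : ℕ} (s : ℕ) (x : Fin N → Pt T D) : SimpleGraph (Fin Q × Fin N) where
  Adj a b := a.1 ≠ b.1 ∧ ∃ U : Finset (Fin T), U.card = s ∧ ∀ t ∈ U, x a.2 t = x b.2 t
  symm := by
    constructor
    rintro a b ⟨h1, U, h2, h3⟩
    exact ⟨h1.symm, U, h2, fun t ht => (h3 t ht).symm⟩
  loopless := ⟨fun a h => h.1 rfl⟩

theorem host_edges {T D N Q : ℕ} (s : ℕ) (x : Fin N → Pt T D) (B : ℝ) (hB : 0 ≤ B)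
    (hc : ∀ (J : Finset (Fin T)) (a : Pt T D), J.card = s → ((cell x J a).card : ℝ) ≤ B) :
    ((univ.filter (fun p : (Fin Q × Fin N) × (Fin Q × Fin N) =>
      (hostG (Q := Q) s x).Adj p.1 p.2)).card : ℝ) ≤ (Q : ℝ) ^ 2 * N * 2 ^ T * B := by
  have h1 : ((univ.filter (fun p : (Fin Q × Fin N) × (Fin Q × Fin N) =>
      (hostG (Q := Q) s x).Adj p.1 p.2)).card : ℝ) =
      ∑ a : Fin Q × Fin N, ∑ b : Fin Q × Fin N, if (hostG (Q := Q) s x).Adj a b then (1:ℝ) else 0 := by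
    rw [Finset.card_filter]
    push_cast
    rw [← Finset.univ_product_univ, Finset.sum_product]
  rw [h1]
  have h2 : ∀ a b : Fin Q × Fin N, (if (hostG (Q := Q) s x).Adj a b then (1:ℝ) else 0) ≤
      ∑ U ∈ univ.filter (fun U : Finset (Fin T) => U.card = s),
        if b.2 ∈ cell x U (x a.2) then (1:ℝ) else 0 := by
    intro a b
    split_ifs with h
    · obtain ⟨-, U, hU, hx⟩ := h
      have hmem : U ∈ univ.filter (fun U : Finset (Fin T) => U.card = s) := by simp [hU]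
      refine le_trans ?_ (Finset.single_le_sum (f := fun U : Finset (Fin T) =>
        if b.2 ∈ cell x U (x a.2) then (1:ℝ) else 0) (fun i _ => ?_) hmem)
      · have : b.2 ∈ cell x U (x a.2) := by
          simp only [cell, mem_filter, mem_univ, true_and]
          intro t ht; exact (hx t ht).symm
        simp [this]
      · split_ifs <;> norm_num
    · exact Finset.sum_nonneg (fun i _ => by split_ifs <;> norm_num)
  calc ∑ a : Fin Q × Fin N, ∑ b : Fin Q × Fin N,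
        (if (hostG (Q := Q) s x).Adj a b then (1:ℝ) else 0)
      ≤ ∑ a : Fin Q × Fin N, ∑ b : Fin Q × Fin N,
        ∑ U ∈ univ.filter (fun U : Finset (Fin T) => U.card = s),
        if b.2 ∈ cell x U (x a.2) then (1:ℝ) else 0 :=
        Finset.sum_le_sum (fun a _ => Finset.sum_le_sum (fun b _ => h2 a b))
    _ = ∑ a : Fin Q × Fin N, ∑ U ∈ univ.filter (fun U : Finset (Fin T) => U.card = s),
        (Q : ℝ) * (cell x U (x a.2)).card := by
        refine Finset.sum_congr rfl (fun a _ => ?_)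
        rw [Finset.sum_comm]
        refine Finset.sum_congr rfl (fun U _ => ?_)
        rw [← Finset.univ_product_univ, Finset.sum_product]
        simp
    _ ≤ ∑ a : Fin Q × Fin N, ∑ U ∈ univ.filter (fun U : Finset (Fin T) => U.card = s),
        (Q : ℝ) * B := by
        refine Finset.sum_le_sum (fun a _ => Finset.sum_le_sum (fun U hU => ?_))
        have := hc U (x a.2) (by simpa using hU)
        gcongr
    _ ≤ ∑ a : Fin Q × Fin N, (2 : ℝ) ^ T * (Q * B) := by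
        refine Finset.sum_le_sum (fun a _ => ?_)
        rw [Finset.sum_const, nsmul_eq_mul]
        have h3 : ((univ.filter (fun U : Finset (Fin T) => U.card = s)).card : ℝ) ≤ 2 ^ T := by
          have h4 : (univ.filter (fun U : Finset (Fin T) => U.card = s)).card ≤ 2 ^ T := by
            refine le_trans (Finset.card_filter_le _ _) ?_
            simp
          exact_mod_cast h4
        have h5 : 0 ≤ (Q : ℝ) * B := by positivity
        gcongr
    _ = (Q : ℝ) ^ 2 * N * 2 ^ T * B := by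
        rw [Finset.sum_const, nsmul_eq_mul]
        simp only [card_univ, Fintype.card_prod, Fintype.card_fin, Nat.cast_mul]
        ring

/-- the general theorem: a host which is good for all graphs of maximum degree `Δ` with a
`(β0, s0)`-cover by sets of size at most `K` -/
theorem host_gen (h2 : HostStmt) (h3 : EmbedStmt) (r Δ β0 s0 K : ℕ) (hr : 1 ≤ r) (hs0 : 0 < s0)
    (hsβ0 : s0 < β0) (hK : 0 < K) (ε0 : ℝ) (hε0 : 0 < ε0) : ∃ C : ℝ, ∀ n : ℕ, 1 ≤ n →
    ∃ (m : ℕ) (Q : ℕ) (G : SimpleGraph (Fin Q × Fin m)),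
      ((univ.filter (fun p : (Fin Q × Fin m) × (Fin Q × Fin m) => G.Adj p.1 p.2)).card : ℝ) ≤
        C * (n : ℝ) ^ (2 - (s0 : ℝ) / β0 + ε0) ∧
      ∀ χ : Fin Q × Fin m → Fin Q × Fin m → Fin r, (∀ a b, χ a b = χ b a) →
        ∃ c, ∀ H : SimpleGraph (Fin n), MaxDeg H Δ → HasCover H β0 s0 K →
          ∃ g : Fin n → Fin Q × Fin m, Injective g ∧
            ∀ u v, H.Adj u v → G.Adj (g u) (g v) ∧ χ (g u) (g v) = c := by
  -- reduce to ε ≤ 1
  obtain ⟨ε, hε, hε1, hεε⟩ : ∃ ε : ℝ, 0 < ε ∧ ε ≤ 1 ∧ ε ≤ ε0 :=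
    ⟨min ε0 1, lt_min hε0 one_pos, min_le_right _ _, min_le_left _ _⟩
  obtain ⟨t0, ht0⟩ := exists_nat_gt (8 / ε)
  have ht0pos : 0 < (t0 : ℝ) := lt_trans (by positivity) ht0
  have ht01 : 1 ≤ t0 := by
    have : 0 < t0 := by exact_mod_cast ht0pos
    exact this
  set β := t0 * β0 with hβ
  set s := t0 * s0 with hs
  have hβ0 : 0 < β0 := lt_trans hs0 hsβ0
  have hβpos : 0 < β := Nat.mul_pos ht01 hβ0
  have hs1 : 1 ≤ s := Nat.mul_pos ht01 hs0
  have hsβ : s < β := Nat.mul_lt_mul_of_pos_left hsβ0 ht01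
  have hβR : (0:ℝ) < β := by exact_mod_cast hβpos
  set σ : ℝ := (s0 : ℝ) / β0 with hσd
  have hβ0R : (0:ℝ) < β0 := by exact_mod_cast hβ0
  have hσ0 : 0 ≤ σ := by positivity
  have hratio : σ * β = s := by
    rw [hβ, hs, hσd]; push_cast
    field_simp
  have hβbig : 8 / ε ≤ (β : ℝ) := by
    have : (t0 : ℝ) ≤ β := by
      rw [hβ]; push_cast
      have : (1:ℝ) ≤ β0 := by exact_mod_cast hβ0
      exact le_mul_of_one_le_right ht0pos.le this
    linarith
  set ε' := ε / 12 with hε'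
  have hε'pos : 0 < ε' := by positivity
  have hε'1 : ε' ≤ 1 / 12 := by rw [hε']; linarith
  obtain ⟨T, Q, δ, D0, hδ, hhost⟩ := h2 β s (K ^ 2 * β ^ 2 + 1) r hs1 hsβ hr
  obtain ⟨D1, hemb⟩ := h3 Δ β s K r δ ε' hs1 hsβ hK hδ hε'pos
  -- constants
  set e1 : ℝ := 1 / (1 - ε') with he1
  have h1e : 0 < 1 - ε' := by linarith
  have he1pos : 0 < e1 := by positivity
  set C1 : ℝ := (D0 : ℝ) + D1 + 2 + (2 * K + 1) ^ e1 with hC1
  have hKR : (1:ℝ) ≤ K := by exact_mod_cast hK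
  have hC1pos : 0 < C1 := by positivity
  refine ⟨(Q : ℝ) ^ 2 * 2 ^ T * 2 * C1 ^ (2 * β + 2 - s), fun n hn => ?_⟩
  have hnR : (1:ℝ) ≤ n := by exact_mod_cast hn
  -- M1
  set M1 : ℕ := ⌈(n : ℝ) ^ (1 / (β : ℝ))⌉₊ with hM1
  have hnM1 : n ≤ M1 ^ β := by
    have h : (n : ℝ) ≤ (M1 : ℝ) ^ β := by
      have h5 : (n : ℝ) ^ (1 / (β : ℝ)) ≤ M1 := Nat.le_ceil _
      calc (n : ℝ) = ((n : ℝ) ^ (1 / (β : ℝ))) ^ β := by
            rw [← Real.rpow_natCast, ← Real.rpow_mul (by positivity)]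
            rw [one_div, inv_mul_cancel₀ hβR.ne', Real.rpow_one]
        _ ≤ (M1 : ℝ) ^ β := by gcongr
    exact_mod_cast h
  have hpow1 : (1:ℝ) ≤ (n : ℝ) ^ (1 / (β : ℝ)) := Real.one_le_rpow hnR (by positivity)
  have hM1le : (M1 : ℝ) ≤ 2 * (n : ℝ) ^ (1 / (β : ℝ)) := by
    have := Nat.ceil_lt_add_one (a := (n : ℝ) ^ (1 / (β : ℝ))) (by positivity)
    rw [← hM1] at this
    linarith
  set Y : ℝ := (K * M1 + 1 : ℝ) ^ e1 with hY
  set D : ℕ := max (max D0 D1) (max 1 ⌈Y⌉₊) with hD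
  have hDD0 : D0 ≤ D := le_trans (le_max_left _ _) (le_max_left _ _)
  have hDD1 : D1 ≤ D := le_trans (le_max_right _ _) (le_max_left _ _)
  have hD1 : 1 ≤ D := le_trans (le_max_left _ _) (le_max_right _ _)
  have hDY : Y ≤ D := le_trans (Nat.le_ceil Y) (by
    exact_mod_cast le_trans (le_max_right 1 ⌈Y⌉₊) (le_max_right (max D0 D1) _))
  have hDR : (1:ℝ) ≤ D := by exact_mod_cast hD1
  -- K * M1 < (2D)^(1-ε')
  have hKM : (K : ℝ) * M1 < ((2 * D : ℕ) : ℝ) ^ (1 - ε') := by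
    have hb : (0:ℝ) ≤ (K * M1 + 1 : ℝ) := by positivity
    have h5 : (K * M1 + 1 : ℝ) = Y ^ (1 - ε') := by
      rw [hY, ← Real.rpow_mul hb, he1, one_div, inv_mul_cancel₀ h1e.ne', Real.rpow_one]
    calc (K : ℝ) * M1 < K * M1 + 1 := by linarith
      _ = Y ^ (1 - ε') := h5
      _ ≤ ((2 * D : ℕ) : ℝ) ^ (1 - ε') := by
          apply Real.rpow_le_rpow (by positivity) _ h1e.le
          push_cast
          linarith
  -- D ≤ C1 * n^(1/(β(1-ε')))
  set P : ℝ := (n : ℝ) ^ (1 / (β : ℝ) * e1) with hP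
  have hP1 : 1 ≤ P := Real.one_le_rpow hnR (by positivity)
  have hYle : Y ≤ (2 * K + 1) ^ e1 * P := by
    have h5 : (K * M1 + 1 : ℝ) ≤ (2 * K + 1) * (n : ℝ) ^ (1 / (β : ℝ)) := by
      have h6 : (K : ℝ) * M1 ≤ K * (2 * (n : ℝ) ^ (1 / (β : ℝ))) :=
        mul_le_mul_of_nonneg_left hM1le (by linarith only [hKR])
      have h7 : (2 * K + 1 : ℝ) * (n : ℝ) ^ (1 / (β : ℝ)) =
        K * (2 * (n : ℝ) ^ (1 / (β : ℝ))) + (n : ℝ) ^ (1 / (β : ℝ)) := by ring
      rw [h7]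
      linarith only [h6, hpow1]
    calc Y ≤ ((2 * K + 1) * (n : ℝ) ^ (1 / (β : ℝ))) ^ e1 := by
          rw [hY]
          exact Real.rpow_le_rpow (by positivity) h5 he1pos.le
      _ = (2 * K + 1) ^ e1 * P := by
          rw [Real.mul_rpow (by positivity) (by positivity), hP, Real.rpow_mul (by positivity)]
  have hDle : (D : ℝ) ≤ C1 * P := by
    have hceil : ((⌈Y⌉₊ : ℕ) : ℝ) ≤ Y + 1 := (Nat.ceil_lt_add_one (by positivity)).le
    have hKe : 0 < ((2 * K + 1 : ℝ)) ^ e1 := by positivity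
    have hD0' : (D0 : ℝ) ≤ D0 * P := by
      exact le_mul_of_one_le_right (Nat.cast_nonneg _) hP1
    have hD1' : (D1 : ℝ) ≤ D1 * P := by
      exact le_mul_of_one_le_right (Nat.cast_nonneg _) hP1
    have e : C1 * P = D0 * P + D1 * P + 2 * P + (2 * K + 1) ^ e1 * P := by rw [hC1]; ring
    have hpos1 : (0:ℝ) ≤ D0 := by positivity
    have hpos2 : (0:ℝ) ≤ D1 := by positivity
    have hpos3 : 0 ≤ (2 * K + 1) ^ e1 * P := by positivity
    rw [hD]; push_cast
    rw [e]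
    refine max_le (max_le ?_ ?_) (max_le ?_ ?_)
    · linarith only [hD0', hD1', hpos1, hpos2, hpos3, hP1]
    · linarith only [hD0', hD1', hpos1, hpos2, hpos3, hP1]
    · linarith only [hD0', hD1', hpos1, hpos2, hpos3, hP1]
    · linarith only [hD0', hD1', hpos1, hpos2, hpos3, hP1, hceil, hYle]
  obtain ⟨x, hx1, hx2⟩ := hhost D hDD0
  refine ⟨D ^ (β + 1), Q, hostG s x, ?_, ?_⟩
  · -- edges
    have hE := host_edges (Q := Q) s x (2 * (D : ℝ) ^ (β + 1 - s)) (by positivity)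
      (fun J a hJ => by
        have := hx1 J a (by omega)
        rwa [hJ] at this)
    refine le_trans hE ?_
    have e1' : (Q : ℝ) ^ 2 * ((D ^ (β + 1) : ℕ) : ℝ) * 2 ^ T * (2 * (D : ℝ) ^ (β + 1 - s)) =
        (Q : ℝ) ^ 2 * 2 ^ T * 2 * (D : ℝ) ^ (2 * β + 2 - s) := by
      have : 2 * β + 2 - s = (β + 1) + (β + 1 - s) := by omega
      rw [this, pow_add]; push_cast; ring
    rw [e1', mul_assoc ((Q : ℝ) ^ 2 * 2 ^ T * 2)]
    apply mul_le_mul_of_nonneg_left _ (by positivity)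
    calc (D : ℝ) ^ (2 * β + 2 - s) ≤ (C1 * P) ^ (2 * β + 2 - s) := by gcongr
      _ = C1 ^ (2 * β + 2 - s) * P ^ (2 * β + 2 - s) := by rw [mul_pow]
      _ ≤ C1 ^ (2 * β + 2 - s) * (n : ℝ) ^ (2 - σ + ε0) := by
          apply mul_le_mul_of_nonneg_left _ (by positivity)
          rw [hP, ← Real.rpow_natCast, ← Real.rpow_mul (by positivity)]
          apply Real.rpow_le_rpow_of_exponent_le hnR
          have hc : ((2 * β + 2 - s : ℕ) : ℝ) = 2 * β + 2 - s := by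
            rw [Nat.cast_sub (by omega)]; push_cast; ring
          rw [hc]
          have hX : (2 * (β:ℝ) + 2 - s) ≤ (2 - σ + ε / 2) * β := by
            have h6 : 2 ≤ ε / 2 * β := by
              have h7 : 8 / ε * (ε / 2) ≤ β * (ε / 2) :=
                mul_le_mul_of_nonneg_right hβbig (by positivity)
              have h8 : 8 / ε * (ε / 2) = 4 := by field_simp; norm_num
              linarith
            have h10 : (2 - σ + ε / 2) * β = 2 * (β : ℝ) - σ * β + ε / 2 * β := by ring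
            rw [h10, hratio]
            linarith only [h6]
          have hX2 : (2 - σ + ε / 2) * e1 ≤ 2 - σ + ε := by
            rw [he1, mul_one_div, div_le_iff₀ h1e]
            have h9 : ε' * (2 - σ + ε) ≤ ε / 2 := by
              have : 2 - σ + ε ≤ 3 := by linarith
              calc ε' * (2 - σ + ε) ≤ ε' * 3 := by gcongr
                _ ≤ ε / 2 := by rw [hε']; linarith
            have h10 : (2 - σ + ε) * (1 - ε') = (2 - σ + ε) - ε' * (2 - σ + ε) := by ring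
            rw [h10]
            linarith only [h9]
          calc 1 / (β : ℝ) * e1 * (2 * β + 2 - s)
              ≤ 1 / (β : ℝ) * e1 * ((2 - σ + ε / 2) * β) := by gcongr
            _ = (2 - σ + ε / 2) * e1 := by field_simp
            _ ≤ 2 - σ + ε := hX2
            _ ≤ 2 - σ + ε0 := by linarith
  · intro χ hχ
    obtain ⟨c, κ, q, hκ, hq, hnum⟩ := hx2 χ hχ
    refine ⟨c, fun H hH hcov => ?_⟩
    have hcovH : HasCover H β s K := cover_scale H β0 s0 K t0 ht01 hcov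
    obtain ⟨g, hg, hgE⟩ := hemb D hDD1 T (D ^ (β + 1)) Q x χ c κ q hχ hκ hq
      (fun J a hJ => by
        have := hx1 J a (by omega)
        rw [hJ] at this
        have e : β + 1 - β = 1 := by omega
        rw [e, pow_one] at this
        exact this) hnum n M1 H hH hcovH hKM hnM1
    refine ⟨g, hg, fun u v huv => ?_⟩
    obtain ⟨h5, h6, U, hU, h7⟩ := hgE u v huv
    exact ⟨⟨h6, U, hU, h7⟩, h5⟩

/-- the theorem for one `Δ`, given the covers for this `Δ` -/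
theorem main_gen (h2 : HostStmt) (h3 : EmbedStmt) (r Δ : ℕ) (hr : 1 ≤ r)
    (h1 : ∀ ε : ℝ, 0 < ε → ∃ β s K : ℕ, 0 < s ∧ s < β ∧ 0 < K ∧ (2 / (Δ : ℝ) - ε) * β ≤ s ∧
      ∀ (n : ℕ) (H : SimpleGraph (Fin n)), MaxDeg H Δ → HasCover H β s K)
    (ε0 : ℝ) (hε0 : 0 < ε0) : ∃ C : ℝ, ∀ n : ℕ, 1 ≤ n →
    ∃ (m : ℕ) (Q : ℕ) (G : SimpleGraph (Fin Q × Fin m)),
      ((univ.filter (fun p : (Fin Q × Fin m) × (Fin Q × Fin m) => G.Adj p.1 p.2)).card : ℝ) ≤
        C * (n : ℝ) ^ (2 - 2 / (Δ : ℝ) + ε0) ∧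
      ∀ χ : Fin Q × Fin m → Fin Q × Fin m → Fin r, (∀ a b, χ a b = χ b a) →
        ∃ c, ∀ H : SimpleGraph (Fin n), MaxDeg H Δ →
          ∃ g : Fin n → Fin Q × Fin m, Injective g ∧
            ∀ u v, H.Adj u v → G.Adj (g u) (g v) ∧ χ (g u) (g v) = c := by
  obtain ⟨β0, s0, K, hs0, hsβ0, hK, hσ, hcov⟩ := h1 (ε0 / 2) (by positivity)
  obtain ⟨C, hC⟩ := host_gen h2 h3 r Δ β0 s0 K hr hs0 hsβ0 hK (ε0 / 2) (by positivity)
  refine ⟨|C|, fun n hn => ?_⟩
  obtain ⟨m, Q, G, hG1, hG2⟩ := hC n hn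
  refine ⟨m, Q, G, ?_, ?_⟩
  · have hnR : (1:ℝ) ≤ n := by exact_mod_cast hn
    have hβ0R : (0:ℝ) < β0 := by exact_mod_cast (lt_trans hs0 hsβ0)
    have hle : 2 - (s0 : ℝ) / β0 + ε0 / 2 ≤ 2 - 2 / (Δ : ℝ) + ε0 := by
      have : 2 / (Δ : ℝ) - ε0 / 2 ≤ (s0 : ℝ) / β0 := by
        rw [le_div_iff₀ hβ0R]; exact hσ
      linarith
    calc ((univ.filter (fun p : (Fin Q × Fin m) × (Fin Q × Fin m) => G.Adj p.1 p.2)).card : ℝ)
        ≤ C * (n : ℝ) ^ (2 - (s0 : ℝ) / β0 + ε0 / 2) := hG1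
      _ ≤ |C| * (n : ℝ) ^ (2 - (s0 : ℝ) / β0 + ε0 / 2) :=
          mul_le_mul_of_nonneg_right (le_abs_self C) (by positivity)
      _ ≤ |C| * (n : ℝ) ^ (2 - 2 / (Δ : ℝ) + ε0) :=
          mul_le_mul_of_nonneg_left (Real.rpow_le_rpow_of_exponent_le hnR hle) (abs_nonneg C)
  · intro χ hχ
    obtain ⟨c, hc⟩ := hG2 χ hχ
    exact ⟨c, fun H hH => hc H hH (hcov n H hH)⟩

theorem main (h1 : CoverStmt) (h2 : HostStmt) (h3 : EmbedStmt) : MainStmt := by
  intro r Δ hr hΔ ε0 hε0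
  obtain ⟨C, hC⟩ := main_gen h2 h3 r Δ hr (h1 Δ hΔ) ε0 hε0
  refine ⟨C, fun n hn => ?_⟩
  obtain ⟨m, Q, G, h5, h6⟩ := hC n hn
  exact ⟨Fin Q × Fin m, inferInstance, G, h5, h6⟩

end Pool.Agent.Helper34.PU
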