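import Pool.Agent.Helper34.PU.Goals

set_option autoImplicit false

open Finset Function
open scoped Classical

namespace Pool.Agent.Helper34.PU

theorem nbw_nn {V : Type} [Fintype V] (H : SimpleGraph V) :
    ∀ (j : ℕ) (p u z : V), 0 ≤ nbw H j p u z := by
  intro j
  induction j with
  | zero => intro p u z; simp only [nbw]; split_ifs <;> norm_num
  | succ j ih => intro p u z; simp only [nbw]; exact Finset.sum_nonneg (fun y _ => ih u y z)

theorem nbw_sum : NbwStmt := by
  intro V _ H Δ hΔ hd J
  have hsymm : ∀ a b : V, a ∈ nbr H b ↔ b ∈ nbr H a := by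
    intro a b; simp only [nbr, mem_filter, mem_univ, true_and]; exact SimpleGraph.adj_comm _ _ _
  induction J with
  | zero =>
    intro z
    have h1 : ∑ u, ∑ y ∈ nbr H u, nbw H 0 u y z = ((nbr H z).card : ℝ) := by
      have h2 : ∀ u : V, ∑ y ∈ nbr H u, nbw H 0 u y z = if z ∈ nbr H u then (1:ℝ) else 0 := by
        intro u; simp only [nbw]; rw [Finset.sum_ite_eq' (nbr H u) z]
      simp only [h2]
      rw [← Finset.sum_filter, Finset.sum_const, nsmul_eq_mul, mul_one]
      congr 2
      ext u
      simp only [mem_filter, mem_univ, true_and]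
      exact hsymm z u
    rw [h1, pow_zero, mul_one]
    exact_mod_cast hd z
  | succ J ih =>
    intro z
    have h1 : ∀ u y : V, nbw H (J + 1) u y z =
        ∑ y' ∈ nbr H y, if y' ≠ u then nbw H J y y' z else 0 := by
      intro u y
      simp only [nbw]
      rw [Finset.sum_filter]
    have h2 : ∑ u, ∑ y ∈ nbr H u, nbw H (J + 1) u y z =
        ∑ y, ∑ u ∈ nbr H y, nbw H (J + 1) u y z := by
      rw [Finset.sum_comm' (s := univ) (t := fun u => nbr H u) (s' := fun y => nbr H y)
        (t' := univ)]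
      intro x y
      simp only [mem_univ, true_and, and_true]
      exact hsymm y x
    rw [h2]
    have h3 : ∀ y : V, ∑ u ∈ nbr H y, nbw H (J + 1) u y z ≤
        ((Δ : ℝ) - 1) * ∑ y' ∈ nbr H y, nbw H J y y' z := by
      intro y
      simp only [h1]
      rw [Finset.sum_comm, Finset.mul_sum]
      refine Finset.sum_le_sum (fun y' hy' => ?_)
      rw [← Finset.sum_filter, Finset.sum_const, nsmul_eq_mul]
      have h4 : ((nbr H y).filter (fun u => y' ≠ u)).card + 1 ≤ Δ := by
        refine le_trans ?_ (hd y)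
        have h5 : (nbr H y).filter (fun u => y' ≠ u) = (nbr H y).erase y' := by
          ext u; simp only [mem_filter, mem_erase]; tauto
        rw [h5, Finset.card_erase_add_one hy']
      have h6 : (((nbr H y).filter (fun u => y' ≠ u)).card : ℝ) ≤ (Δ : ℝ) - 1 := by
        have : ((((nbr H y).filter (fun u => y' ≠ u)).card + 1 : ℕ) : ℝ) ≤ Δ := by exact_mod_cast h4
        push_cast at this; linarith
      exact mul_le_mul_of_nonneg_right h6 (nbw_nn H J y y' z)
    refine le_trans (Finset.sum_le_sum (fun y _ => h3 y)) ?_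
    rw [← Finset.mul_sum]
    have h7 : (0:ℝ) ≤ (Δ : ℝ) - 1 := by
      have : (1:ℝ) ≤ Δ := by exact_mod_cast hΔ
      linarith
    calc ((Δ : ℝ) - 1) * ∑ i, ∑ y' ∈ nbr H i, nbw H J i y' z
        ≤ ((Δ : ℝ) - 1) * (Δ * ((Δ : ℝ) - 1) ^ J) := mul_le_mul_of_nonneg_left (ih z) h7
      _ = Δ * ((Δ : ℝ) - 1) ^ (J + 1) := by rw [pow_succ]; ring

end Pool.Agent.Helper34.PU
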