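import Pool.Agent.Helper34.PU.Goals
import Pool.Agent.Helper34.PU.Goals2
import Pool.Agent.Helper34.PU.Main
import Pool.Agent.Helper34.PU.Dens
import Pool.Agent.Helper34.PU.Nbw
import Pool.Agent.Helper34.PU.Cov2
import Pool.Agent.Helper10.PU.KAPPA
import Pool.Agent.Helper14.PU.SLOT
import Pool.Agent.Helper19.PU.EMBED
import Pool.Agent.Helper26.PU.VIRT
import Pool.Agent.Helper27.PU.BALL
import Pool.Agent.Helper27.PU.PRND
import Pool.Agent.Helper29.PU.KX
import Pool.Agent.Helper29.PU.RCOV
import Pool.Agent.Helper30.PU.TYPE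
import Pool.Agent.Helper38.PU.DL
import Pool.Agent.Helper42.PU.TOG
import Pool.Agent.Helper49.PU.ARM
import Pool.Agent.Helper49.PU.CBOX
import Pool.Agent.Helper5.PU.BERN
import Pool.Agent.Helper5.PU.RND
import Pool.Agent.Helper50.PU.GREEDY
import Pool.Agent.Helper50.PU.NUMT
import Pool.Agent.Helper6.PU.HOST
import Pool.Agent.Helper6.PU.WEIGHT
import Pool.Agent.Helper64.PU.WR
import Pool.Agent.Helper65.PU.PFLIB
import Pool.Agent.Helper67.PU.STEP
import Pool.Agent.Helper69.PU.COVER
import Pool.Agent.Helper73.PU.UNI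
import Pool.Agent.Helper77.PU.MU
import Pool.Agent.Helper80.PU.DRC
import Pool.Agent.Helper80.PU.RAMI
import Pool.Agent.Helper82.PU.BES
import Pool.Agent.Helper82.PU.TV
import Pool.Agent.Helper83.PU.INT
import Pool.Agent.Helper85.PU.PROC
import Pool.Agent.Helper86.PU.KY
import Pool.Agent.Helper89.PU.LL
import Pool.Agent.Helper89.PU.NEST
import Pool.Agent.Helper93.PU.CNT
import Pool.Agent.Helper96.PU.FRAME
import Pool.Agent.Helper59.PU.RC2

/-!
MP_8060f4_co : assembly of all packets.
-/

set_option autoImplicit false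

open Finset Function
open scoped Classical

namespace Pool.Agent.Helper34.PU

theorem arm_all : ArmStmt := Helper49.PU.arm Helper89.PU.ll1 Helper67.PU.step

theorem proc_all : ProcStmt :=
  Helper85.PU.proc Helper89.PU.ll2 Helper89.PU.ll3 Helper67.PU.step arm_all

theorem int_all : IntStmt := Helper83.PU.int_cover Helper27.PU.ball

theorem cover_all : CoverStmt :=
  Helper69.PU.cover (Helper29.PU.rcov (Helper6.PU.weight proc_all nbw_sum Helper77.PU.mu)) int_all

theorem kappa_all : KappaStmt :=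
  Helper10.PU.kappa Helper96.PU.frame
    (Helper86.PU.ky (Helper49.PU.cbox (Helper82.PU.bes Helper65.PU.pflib)))
    (Helper29.PU.kx (Helper38.PU.dl Helper65.PU.pflib))

theorem virt_all : VirtStmt :=
  Helper26.PU.virt Helper65.PU.pflib (Helper5.PU.rnd Helper65.PU.pflib) Helper82.PU.tv

theorem dens_all : DensStmt :=
  dens Helper80.PU.rami Helper64.PU.wr kappa_all Helper93.PU.cnt virt_all

theorem host_all : HostStmt :=
  Helper6.PU.host (Helper27.PU.prnd (Helper73.PU.uni Helper5.PU.bern)) dens_all Helper50.PU.numt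

theorem embed_all : EmbedStmt :=
  Helper19.PU.embed (Helper89.PU.nest Helper80.PU.drc) Helper50.PU.greedy
    (Helper14.PU.slot Helper30.PU.type_col) Helper42.PU.tog

theorem main_all : MainStmt := main cover_all host_all embed_all

/-- covers for every `Δ ≥ 2` -/
theorem cover_ge2 (Δ : ℕ) (hΔ : 2 ≤ Δ) : ∀ ε : ℝ, 0 < ε → ∃ β s K : ℕ, 0 < s ∧ s < β ∧ 0 < K ∧
    (2 / (Δ : ℝ) - ε) * β ≤ s ∧
    ∀ (n : ℕ) (H : SimpleGraph (Fin n)), MaxDeg H Δ → HasCover H β s K := by
  rcases Nat.lt_or_ge 2 Δ with h | h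
  · exact cover_all Δ h
  · have : Δ = 2 := le_antisymm h hΔ
    subst this
    exact cover2 Helper59.PU.rc2 int_all



end Pool.Agent.Helper34.PU
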