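import Mathlib

/-!
MP_8060f4_co (r-partition universal graphs for H(n, Δ)) : shared definitions.

Main theorem (Goals.lean, `MainStmt`): for r ≥ 1, Δ ≥ 3 and ε > 0 there is C such that for all n there
is a graph with at most C n^(2 - 2/Δ + ε) edges which is r-partition universal for all graphs on n
vertices of maximum degree at most Δ.
-/

set_option autoImplicit false

open Finset
open scoped Classical

namespace Pool.Agent.Helper34.PU

/-! ### Part S : covers of bounded degree graphs -/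

/-- neighbours of `u` -/
noncomputable def nbr {V : Type} [Fintype V] (H : SimpleGraph V) (u : V) : Finset V :=
  univ.filter (fun y => H.Adj u y)

/-- every vertex has at most `Δ` neighbours -/
def MaxDeg {V : Type} [Fintype V] (H : SimpleGraph V) (Δ : ℕ) : Prop :=
  ∀ v, (nbr H v).card ≤ Δ

/-- number of non backtracking walks of length `j` from `u` to `z` whose first step is not `p` -/
noncomputable def nbw {V : Type} [Fintype V] (H : SimpleGraph V) : ℕ → V → V → V → ℝ
  | 0, _, u, z => if u = z then 1 else 0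
  | j + 1, p, u, z => ∑ y ∈ (nbr H u).filter (fun y => y ≠ p), nbw H j u y z

/-- a finite probability space carrying a random list `F` (vertices, in order of inclusion) and a
random finite set `Y` (cut vertices) -/
structure RF (V : Type) where
  Ω : Type
  [inst : Fintype Ω]
  w : Ω → ℝ
  w_nonneg : ∀ ω, 0 ≤ w ω
  w_sum : ∑ ω, w ω = 1
  F : Ω → List V
  Y : Ω → Finset V

attribute [instance] RF.inst

/-- probability that `z` is in the list -/
noncomputable def RF.In {V : Type} (R : RF V) (z : V) : ℝ :=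
  ∑ ω, if z ∈ R.F ω then R.w ω else 0

/-- probability that `a` and `b` are in the list and `a` comes before `b` -/
noncomputable def RF.Bef {V : Type} (R : RF V) (a b : V) : ℝ :=
  ∑ ω, if [a, b].Sublist (R.F ω) then R.w ω else 0

/-- probability that `z` is cut -/
noncomputable def RF.Cut {V : Type} (R : RF V) (z : V) : ℝ :=
  ∑ ω, if z ∈ R.Y ω then R.w ω else 0

/-- the properties of the future after history `h` -/
structure Core {V : Type} (H : SimpleGraph V) (θ : ℝ) (h : Finset V) (ℓ : ℕ) (R : RF V) : Prop where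
  nodup : ∀ ω, (R.F ω).Nodup
  disj : ∀ ω, ∀ z ∈ R.F ω, z ∉ h
  up : ∀ a b, a ∉ h → b ∉ h → H.Adj a b → R.Bef a b ≤ θ * (R.In a - R.Bef b a)
  lo : ∀ a b, a ∉ h → b ∉ h → H.Adj a b → θ * (R.In a - R.Bef b a - R.Cut a) ≤ R.Bef a b
  link : ∀ ω, ∀ b ∈ R.F ω, ∃ a, H.Adj a b ∧ (a ∈ h ∨ [a, b].Sublist (R.F ω))
  len : ∀ ω, (R.F ω).length ≤ ℓ

/-- probability that `z` is in the piece started at `u` -/
noncomputable def inX {V : Type} (M : V → RF V) (u z : V) : ℝ :=
  if z = u then 1 else (M u).In z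

/-- probability that `a` and `b` are both in the piece started at `u` -/
noncomputable def covX {V : Type} (M : V → RF V) (u a b : V) : ℝ :=
  if a = u then (M u).In b else if b = u then (M u).In a else (M u).Bef a b + (M u).Bef b a

/-- weighted family of sets of size at most `K`, every vertex has total weight 1, every edge has
total weight between `σ - η` and `σ` -/
def RealCover {V : Type} [Fintype V] (H : SimpleGraph V) (K : ℕ) (σ η : ℝ) : Prop :=
  ∃ (Ω : Type) (_ : Fintype Ω) (w : Ω → ℝ) (X : Ω → Finset V),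
    (∀ ω, 0 ≤ w ω) ∧ (∀ ω, (X ω).card ≤ K) ∧
    (∀ ω, ∀ a ∈ X ω, ∀ b ∈ X ω, ∃ p : H.Walk a b, p.length ≤ K) ∧
    (∀ v, (∑ ω, if v ∈ X ω then w ω else 0) = 1) ∧
    (∀ a b, H.Adj a b → σ - η ≤ (∑ ω, if a ∈ X ω ∧ b ∈ X ω then w ω else 0) ∧
      (∑ ω, if a ∈ X ω ∧ b ∈ X ω then w ω else 0) ≤ σ)

/-- `(β, s)`-cover of `H` by sets of size at most `K`: every vertex is in exactly `β` sets, the two
ends of every edge are in exactly `s` common sets, every singleton is one of the sets -/
def HasCover {V : Type} [Fintype V] (H : SimpleGraph V) (β s K : ℕ) : Prop :=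
  ∃ (ι : Type) (_ : Fintype ι) (X : ι → Finset V),
    (∀ j, (X j).card ≤ K) ∧
    (∀ v, (univ.filter (fun j => v ∈ X j)).card = β) ∧
    (∀ u v, H.Adj u v → (univ.filter (fun j => u ∈ X j ∧ v ∈ X j)).card = s) ∧
    (∀ v, ∃ j, X j = {v})

/-! ### Part R : the host -/

/-- points -/
abbrev Pt (T D : ℕ) := Fin T → Fin D

/-- types of vertices : `β`-subsets of `Fin T0` -/
abbrev Idx (T0 β : ℕ) := {I : Finset (Fin T0) // I.card = β}

/-- indices of the points of `x` in the cell `(J, a)` -/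
def cell {T D N : ℕ} (x : Fin N → Pt T D) (J : Finset (Fin T)) (a : Pt T D) : Finset (Fin N) :=
  univ.filter (fun i => ∀ t ∈ J, x i t = a t)

/-- the block `(J, a)` of the full product space -/
def blk {T D : ℕ} (J : Finset (Fin T)) (a : Pt T D) : Finset (Pt T D) :=
  univ.filter (fun φ => ∀ t ∈ J, φ t = a t)

/-- average -/
noncomputable def avg {α : Type} (A : Finset α) (f : α → ℝ) : ℝ := (∑ i ∈ A, f i) / A.card

/-- fourth power of the box norm -/
noncomputable def box4 {α : Type} (A B : Finset α) (F : α → α → ℝ) : ℝ :=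
  avg A (fun i => avg A (fun i' => (avg B (fun j => F i j * F i' j)) ^ 2))

/-- `g` depends only on the coordinates in `J` -/
def Dep {T D : ℕ} (J : Finset (Fin T)) (g : Pt T D → ℝ) : Prop :=
  ∀ φ ψ : Pt T D, (∀ t ∈ J, φ t = ψ t) → g φ = g ψ

/-- `F` is a product of functions bounded by 1, each depending on a set `J` of at most `β`
coordinates with `J0 ⊆ J ⊆ K` -/
def PF (β : ℕ) {T D : ℕ} (J0 K : Finset (Fin T)) (F : Pt T D → ℝ) : Prop :=
  ∃ g : Finset (Fin T) → Pt T D → ℝ, (∀ J φ, |g J φ| ≤ 1) ∧ (∀ J, Dep J (g J)) ∧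
    ∀ φ, F φ = ∏ J ∈ K.powerset.filter (fun J => J0 ⊆ J ∧ J.card ≤ β), g J φ

/-- pseudo-randomness -/
def PR (β k : ℕ) (η : ℝ) {T D N : ℕ} (x : Fin N → Pt T D) : Prop :=
  ∀ (J0 K : Finset (Fin T)) (a : Pt T D) (F : Pt T D → ℝ), J0 ⊆ K → J0.card ≤ β → K.card ≤ k →
    PF β J0 K F → |avg (cell x J0 a) (fun i => F (x i)) - avg (blk J0 a) F| ≤ η

/-- all cells have the right size up to a factor `1 ± η` -/
def CB (β : ℕ) (η : ℝ) {T D N : ℕ} (x : Fin N → Pt T D) : Prop :=
  ∀ (J : Finset (Fin T)) (a : Pt T D), J.card ≤ β →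
    |((cell x J a).card : ℝ) - (D : ℝ) ^ (β + 1 - J.card)| ≤ η * (D : ℝ) ^ (β + 1 - J.card)

/-- density of colour `c` between two label classes of `B` -/
noncomputable def Wc {α : Type} {L r : ℕ} (B : Finset α) (l1 l2 : α → Fin L)
    (col : α → α → Fin r) (c : Fin r) (a b : Fin L) : ℝ :=
  if (B.filter (fun i => l1 i = a)).Nonempty ∧ (B.filter (fun j => l2 j = b)).Nonempty then
    avg (B.filter (fun i => l1 i = a)) (fun i => avg (B.filter (fun j => l2 j = b))
      (fun j => if col i j = c then 1 else 0))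
  else 1 / r

/-- error of the regularisation of colour `c` between the classes `p` and `q` of the block
`(U, φ)` -/
noncomputable def Ferr {T D N Q r L : ℕ} (x : Fin N → Pt T D)
    (f : Fin Q × Fin N → Fin Q × Fin N → Fin r)
    (lab : Fin Q → Finset (Fin T) → Fin N → Fin L) (U : Finset (Fin T)) (φ : Pt T D)
    (p q : Fin Q) (c : Fin r) (i j : Fin N) : ℝ :=
  (if f (p, i) (q, j) = c then 1 else 0) -
    Wc (cell x U φ) (lab p U) (lab q U) (fun i j => f (p, i) (q, j)) c (lab p U i) (lab q U j)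

/-- unordered pairs of types meeting in `s` elements, listed once with the help of `q` -/
noncomputable def prs {T0 β Q : ℕ} (s : ℕ) (q : Idx T0 β → Fin Q) :
    Finset (Idx T0 β × Idx T0 β) :=
  univ.filter (fun P => q P.1 < q P.2 ∧ (P.1.1 ∩ P.2.1).card = s)

/-- density of monochromatic templates -/
noncomputable def Dens {T D N Q r T0 β : ℕ} (s : ℕ) (x : Fin N → Pt T D)
    (f : Fin Q × Fin N → Fin Q × Fin N → Fin r) (c : Fin r) (κ : Fin T0 → Fin T)
    (q : Idx T0 β → Fin Q) : ℝ :=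
  avg univ (fun φ : Pt T D =>
    avg (Fintype.piFinset (fun I : Idx T0 β => cell x (I.1.image κ) φ)) (fun y =>
      ∏ P ∈ prs s q, if f (q P.1, y P.1) (q P.2, y P.2) = c then 1 else 0))

/-- the same density computed with label densities `W` -/
noncomputable def DensW {T D N Q r L k T0 β : ℕ} (s : ℕ) (x : Fin N → Pt T D) (κ : Fin k → Fin T)
    (lab : Fin Q → Finset (Fin k) → Fin N → Fin L)
    (W : Fin r → Fin Q → Fin Q → Finset (Fin k) → Pt T D → Fin L → Fin L → ℝ)
    (c : Fin r) (j0 : Fin T0 → Fin k) (q : Idx T0 β → Fin Q) : ℝ :=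
  avg univ (fun φ : Pt T D =>
    avg (Fintype.piFinset (fun I : Idx T0 β => cell x ((I.1.image j0).image κ) φ)) (fun y =>
      ∏ P ∈ prs s q, W c (q P.1) (q P.2) ((P.1.1 ∩ P.2.1).image j0) φ
        (lab (q P.1) ((P.1.1 ∩ P.2.1).image j0) (y P.1))
        (lab (q P.2) ((P.1.1 ∩ P.2.1).image j0) (y P.2))))

/-- `(φ, y)` is a template in colour `c` -/
def IsTemplate {T D N Q r T0 β : ℕ} (s : ℕ) (x : Fin N → Pt T D)
    (f : Fin Q × Fin N → Fin Q × Fin N → Fin r) (c : Fin r) (κ : Fin T0 → Fin T)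
    (q : Idx T0 β → Fin Q) (φ : Fin T0 → Fin D) (y : Idx T0 β → Fin N) : Prop :=
  (∀ I : Idx T0 β, ∀ j ∈ I.1, x (y I) (κ j) = φ j) ∧
    ∀ I I' : Idx T0 β, (I.1 ∩ I'.1).card = s → f (q I, y I) (q I', y I') = c

/-- number of templates -/
noncomputable def numT {T D N Q r T0 β : ℕ} (s : ℕ) (x : Fin N → Pt T D)
    (f : Fin Q × Fin N → Fin Q × Fin N → Fin r) (c : Fin r) (κ : Fin T0 → Fin T)
    (q : Idx T0 β → Fin Q) : ℕ :=
  ((univ : Finset ((Fin T0 → Fin D) × (Idx T0 β → Fin N))).filter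
    (fun P => IsTemplate s x f c κ q P.1 P.2)).card

/-- the inequality behind Ramsey's theorem -/
def RamOK (r s T0 h Q k : ℕ) : Prop :=
  ∀ w : Fin r → Fin Q → Fin Q → Finset (Fin k) → ℝ, (∀ c p q U, 0 ≤ w c p q U) →
    (∀ p q U, ∑ c, w c p q U = 1) →
    1 ≤ ∑ c : Fin r, ∑ g ∈ univ.filter (fun g : Fin h → Fin Q => StrictMono g),
      ∑ j ∈ univ.filter (fun j : Fin T0 → Fin k => StrictMono j),
        ∏ P ∈ univ.filter (fun P : Fin h × Fin h => P.1 < P.2),
          ∏ U ∈ univ.filter (fun U : Finset (Fin T0) => U.card = s),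
            w c (g P.1) (g P.2) (U.image j)

/-! ### Part E : the embedding -/

/-- nested good families of partial tuples -/
def Nest (l M d : ℕ) (κ : ℝ) (G : (j : ℕ) → Finset (Fin j → Fin M)) : Prop :=
  (G 0).Nonempty ∧ ∀ j, j < l → ∀ S : Finset (Fin j → Fin M), S ⊆ G j → S.card ≤ d →
    κ ≤ ((univ.filter (fun w : Fin M => ∀ e ∈ S,
      (Fin.snoc e w : Fin (j + 1) → Fin M) ∈ G (j + 1))).card : ℝ)

end Pool.Agent.Helper34.PU
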