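import Pool.Agent.Helper34.PU.All

/-!
Passage from symmetric functions to colourings of the edge set, and general host theorem in the
language of Mathlib.
-/

set_option autoImplicit false

open Finset Function
open scoped Classical

namespace Pool.Agent.Helper34.PU

/-- the graph formed by the edges of `G` whose colour is `c` -/
def colourClass {V : Type} {r : ℕ} (G : SimpleGraph V) (χ : G.edgeSet → Fin r) (c : Fin r) :
    SimpleGraph V where
  Adj u v := ∃ h : G.Adj u v, χ ⟨s(u, v), h⟩ = c
  symm := by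
    constructor
    rintro u v ⟨h, hc⟩
    refine ⟨h.symm, ?_⟩
    rw [← hc]
    congr 1
    exact Subtype.ext Sym2.eq_swap
  loopless := ⟨fun u h => by obtain ⟨h, -⟩ := h; exact G.loopless.irrefl u h⟩

theorem maxDeg_of_ncard {n Δ : ℕ} (H : SimpleGraph (Fin n))
    (h : ∀ v, (H.neighborSet v).ncard ≤ Δ) : MaxDeg H Δ := by
  intro v
  have e : ((nbr H v : Finset (Fin n)) : Set (Fin n)) = H.neighborSet v := by
    ext y; simp [nbr, SimpleGraph.mem_neighborSet]
  have := h v
  rw [← e, Set.ncard_coe_finset] at this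
  exact this

theorem edges_le {V : Type} [Fintype V] (G : SimpleGraph V) :
    G.edgeSet.ncard ≤ (univ.filter (fun p : V × V => G.Adj p.1 p.2)).card := by
  have e : G.edgeSet = (((univ.filter (fun p : V × V => G.Adj p.1 p.2)).image
      (fun p => s(p.1, p.2)) : Finset (Sym2 V)) : Set (Sym2 V)) := by
    ext z
    induction z using Sym2.ind with
    | _ a b =>
      simp only [SimpleGraph.mem_edgeSet, coe_image, Set.mem_image, coe_filter, mem_univ,
        true_and, Set.mem_ofPred_eq, Prod.exists]
      constructor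
      · intro h; exact ⟨a, b, h, rfl⟩
      · rintro ⟨x, y, h, hxy⟩
        rw [Sym2.eq_iff] at hxy
        rcases hxy with ⟨rfl, rfl⟩ | ⟨rfl, rfl⟩
        · exact h
        · exact h.symm
  rw [e, Set.ncard_coe_finset]
  exact Finset.card_image_le

theorem copy_of_sym {V : Type} {r n : ℕ} (hr : 0 < r) (G : SimpleGraph V)
    (χ : G.edgeSet → Fin r) : ∃ f : V → V → Fin r, (∀ a b, f a b = f b a) ∧
      ∀ (c : Fin r) (H : SimpleGraph (Fin n)) (g : Fin n → V), Injective g →
        (∀ u v, H.Adj u v → G.Adj (g u) (g v) ∧ f (g u) (g v) = c) →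
        H.IsContained (colourClass G χ c) := by
  refine ⟨fun a b => if h : s(a, b) ∈ G.edgeSet then χ ⟨s(a, b), h⟩ else ⟨0, hr⟩, fun a b => ?_,
    fun c H g hg hE => ?_⟩
  · dsimp only
    by_cases h : s(a, b) ∈ G.edgeSet
    · have h' : s(b, a) ∈ G.edgeSet := by rw [Sym2.eq_swap]; exact h
      rw [dif_pos h, dif_pos h']
      congr 1
      exact Subtype.ext Sym2.eq_swap
    · have h' : s(b, a) ∉ G.edgeSet := by rw [Sym2.eq_swap]; exact h
      rw [dif_neg h, dif_neg h']
  · refine ⟨⟨⟨g, ?_⟩, hg⟩⟩
    intro u v huv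
    obtain ⟨h1, h2⟩ := hE u v huv
    have h3 : s(g u, g v) ∈ G.edgeSet := h1
    refine ⟨h1, ?_⟩
    dsimp only at h2
    rw [dif_pos h3] at h2
    exact h2

end Pool.Agent.Helper34.PU
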