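import Pool.Agent.Helper34.PU.Defs

/-!
MP_8060f4_co : the statements of all packets.
-/

set_option autoImplicit false

open Finset Function
open scoped Classical

namespace Pool.Agent.Helper34.PU

/-! ### Part S : covers -/

/-- packet LL (1) -/
def LL1Stmt : Prop := ∀ (V : Type) (Z : Finset V) (θ : ℝ) (r : V → ℝ) (g : V → V → ℝ),
  0 < θ → (Z.card : ℝ) * θ ≤ 1 → (∀ z ∈ Z, 0 ≤ r z ∧ r z ≤ θ) →
  (∀ y ∈ Z, ∀ z ∈ Z, y ≠ z → 0 ≤ g y z ∧ g y z ≤ θ) →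
  ∃ c : V → ℝ, (∀ z ∈ Z, 0 ≤ c z ∧ c z ≤ θ) ∧
    ∀ z ∈ Z, c z + ∑ y ∈ Z.erase z, c y * g y z + (1 - ∑ y ∈ Z, c y) * r z = θ

/-- packet LL (2) -/
def LL2Stmt : Prop := ∀ (V : Type) (Z : Finset V) (θ τ : ℝ) (g : V → V → ℝ),
  0 ≤ τ → 0 < θ → ((Z.card : ℝ) - 1) * θ ≤ 1 →
  (∀ y ∈ Z, ∀ z ∈ Z, y ≠ z → 0 ≤ g y z ∧ g y z ≤ θ) →
  ∃ c : V → ℝ, (∀ z ∈ Z, 0 ≤ c z ∧ c z ≤ τ) ∧
    ∀ z ∈ Z, c z + ∑ y ∈ Z.erase z, c y * g y z = τ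

/-- packet LL (3) -/
def LL3Stmt : Prop := ∀ (V : Type) (Z : Finset V) (θ τ : ℝ) (g : V → V → ℝ),
  0 ≤ τ → τ ≤ θ → θ < 1 → (Z.card : ℝ) * (θ - τ) ≤ 1 - τ →
  (∀ y ∈ Z, ∀ z ∈ Z, y ≠ z → τ ≤ g y z ∧ g y z ≤ θ) →
  ∃ c : V → ℝ, (∀ z ∈ Z, 0 ≤ c z ∧ c z * (1 - τ) ≤ θ - τ) ∧
    ∀ z ∈ Z, c z + ∑ y ∈ Z.erase z, c y * g y z + (1 - ∑ y ∈ Z, c y) * τ = θ

/-- packet STEP -/
def StepStmt : Prop := ∀ (V : Type) (H : SimpleGraph V) (θ : ℝ) (h Z : Finset V) (ℓ : ℕ)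
  (c : V → ℝ) (R : V → RF V) (E : RF V), 0 ≤ θ → Disjoint h Z → (∀ y ∈ Z, ∃ a ∈ h, H.Adj a y) →
  (∀ y ∈ Z, 0 ≤ c y) → ∑ y ∈ Z, c y ≤ 1 →
  (∀ y ∈ Z, Core H θ (insert y h) ℓ (R y)) →
  (∀ y ∈ Z, ∀ z, z ∉ insert y h → (R y).In z ≤ θ) →
  (∀ y ∈ Z, ∀ b, b ∉ insert y h → H.Adj y b → θ * (1 - (R y).Cut y) ≤ (R y).In b) →
  Core H θ h (ℓ + 1) E →
  ∃ M : RF V, Core H θ h (ℓ + 1) M ∧
    (∀ z, z ∉ h → M.In z = (if z ∈ Z then c z else 0) + ∑ y ∈ Z.erase z, c y * (R y).In z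
      + (1 - ∑ y ∈ Z, c y) * E.In z) ∧
    (∀ z, M.Cut z = ∑ y ∈ Z, c y * (R y).Cut z + (1 - ∑ y ∈ Z, c y) * E.Cut z)

/-- packet ARM -/
def ArmStmt : Prop := ∀ (V : Type) [Fintype V] (H : SimpleGraph V) (Δ : ℕ) (θ : ℝ), MaxDeg H Δ →
  0 < θ → ((Δ : ℝ) - 1) * θ ≤ 1 → ∀ (D : Finset V) (ρ : ℝ), 0 ≤ ρ → ρ ≤ θ →
  ∀ (h0 : Finset V) (Ex : Finset V → RF V) (ys : V → ℝ) (ℓ : ℕ),
  (∀ h, h0 ⊆ h → Core H θ h ℓ (Ex h) ∧ (∀ z, z ∉ h → (Ex h).In z ≤ θ) ∧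
    (∀ z ∈ D, z ∉ h → ρ ≤ (Ex h).In z) ∧ ∀ z, (Ex h).Cut z ≤ ys z) →
  ∀ (j : ℕ) (h : Finset V) (p u : V), h0 ⊆ h → p ∈ h → u ∈ h → H.Adj p u →
    ∃ M : RF V, Core H θ h (ℓ + j) M ∧ (∀ z, z ∉ h → M.In z ≤ θ) ∧
      (∀ z ∈ D, z ∉ h → ρ ≤ M.In z) ∧
      (∀ b, b ∉ h → H.Adj u b → θ * (1 - M.Cut u) ≤ M.In b) ∧
      (∀ z, M.Cut z ≤ θ ^ j * nbw H j p u z + ys z)

/-- packet PROC -/
def ProcStmt : Prop := ∀ (V : Type) [Fintype V] (H : SimpleGraph V) (Δ : ℕ) (θ : ℝ), 3 ≤ Δ →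
  MaxDeg H Δ → 0 < θ → ((Δ : ℝ) - 1) * θ ≤ 1 → ∀ (J : ℕ) (u : V),
  ∃ M : RF V, Core H θ {u} (2 * J + 2) M ∧ (∀ z, z ≠ u → M.In z ≤ θ) ∧
    (∀ b, H.Adj u b → M.In b = θ) ∧
    (∀ z, M.Cut z ≤ 2 * θ ^ (J + 1) * ∑ y ∈ nbr H u, nbw H J u y z)

/-- packet NBW -/
def NbwStmt : Prop := ∀ (V : Type) [Fintype V] (H : SimpleGraph V) (Δ : ℕ), 1 ≤ Δ → MaxDeg H Δ →
  ∀ (J : ℕ) (z : V), ∑ u, ∑ y ∈ nbr H u, nbw H J u y z ≤ Δ * ((Δ : ℝ) - 1) ^ J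

/-- packet MU : starting intensities -/
def MuStmt : Prop := ∀ (V : Type) [Fintype V] (H : SimpleGraph V) (Δ ℓ : ℕ) (θ η1 : ℝ)
  (M : V → RF V), MaxDeg H Δ → 0 < θ → θ < 1 → 0 ≤ η1 →
  Δ * θ ^ 2 * η1 / (1 - θ ^ 2) < 1 - Δ * θ / (1 + θ) →
  (∀ u, Core H θ {u} ℓ (M u)) → (∀ u z, z ≠ u → (M u).In z ≤ θ) →
  (∀ u b, H.Adj u b → (M u).In b = θ) → (∀ z, ∑ u, (M u).Cut z ≤ η1) →
  ∃ μ : V → ℝ, (∀ u, 0 ≤ μ u) ∧ (∀ v, ∑ u, μ u * inX M u v = 1) ∧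
    (∀ a b, H.Adj a b → 2 * θ / (1 + θ) * (1 - η1) ≤ ∑ u, μ u * covX M u a b ∧
      ∑ u, μ u * covX M u a b ≤ 2 * θ / (1 + θ))

/-- packet WEIGHT -/
def WeightStmt : Prop := ∀ (Δ : ℕ) (θ : ℝ), 3 ≤ Δ → 0 < θ → ((Δ : ℝ) - 1) * θ < 1 →
  ∀ η : ℝ, 0 < η → ∃ J : ℕ, ∀ (V : Type) [Fintype V] (H : SimpleGraph V), MaxDeg H Δ →
    ∃ (M : V → RF V) (μ : V → ℝ), (∀ u, Core H θ {u} (2 * J + 2) (M u)) ∧ (∀ u, 0 ≤ μ u) ∧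
      (∀ v, ∑ u, μ u * inX M u v = 1) ∧
      (∀ a b, H.Adj a b → 2 * θ / (1 + θ) - η ≤ ∑ u, μ u * covX M u a b ∧
        ∑ u, μ u * covX M u a b ≤ 2 * θ / (1 + θ))

/-- packet RCOV -/
def RCovStmt : Prop := ∀ (Δ : ℕ) (θ : ℝ), 3 ≤ Δ → 0 < θ → ((Δ : ℝ) - 1) * θ < 1 →
  ∀ η : ℝ, 0 < η → ∃ K : ℕ, ∀ (V : Type) [Fintype V] (H : SimpleGraph V), MaxDeg H Δ →
    RealCover H K (2 * θ / (1 + θ)) η

/-- packet BALL -/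
def BallStmt : Prop := ∀ (V : Type) [Fintype V] (H : SimpleGraph V) (Δ K : ℕ) (v : V),
  MaxDeg H Δ → (univ.filter (fun b => ∃ p : H.Walk v b, p.length ≤ K)).card ≤ (Δ + 1) ^ K

/-- packet INT -/
def IntStmt : Prop := ∀ (Δ K Mw : ℕ) (σ η : ℝ), 0 < σ → σ < 1 → 0 ≤ η → 1 ≤ Mw →
  ∀ (V : Type) [Fintype V] (H : SimpleGraph V), MaxDeg H Δ → RealCover H K σ η →
    HasCover H (Mw + Δ * (⌊(Mw : ℝ) * η⌋₊ + 2 ^ ((Δ + 1) ^ K) + 1) + 1) ⌊(Mw : ℝ) * σ⌋₊ (max K 2)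

/-- packet COVER -/
def CoverStmt : Prop := ∀ Δ : ℕ, 3 ≤ Δ → ∀ ε : ℝ, 0 < ε → ∃ β s K : ℕ, 0 < s ∧ s < β ∧ 0 < K ∧
  (2 / (Δ : ℝ) - ε) * β ≤ s ∧
  ∀ (n : ℕ) (H : SimpleGraph (Fin n)), MaxDeg H Δ → HasCover H β s K

/-! ### Part R : the host -/

/-- packet PFLIB -/
def PFLibStmt : Prop :=
  (∀ (β T D : ℕ) (J0 K J : Finset (Fin T)) (g : Pt T D → ℝ), J0 ⊆ J → J ⊆ K → J.card ≤ β →
    (∀ φ, |g φ| ≤ 1) → Dep J g → PF β J0 K g) ∧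
  (∀ (β T D : ℕ) (J0 K1 K2 : Finset (Fin T)) (F1 F2 : Pt T D → ℝ), PF β J0 K1 F1 →
    PF β J0 K2 F2 → PF β J0 (K1 ∪ K2) (fun φ => F1 φ * F2 φ)) ∧
  (∀ (β T D : ℕ) (J0 K : Finset (Fin T)) (ι : Type) (S : Finset ι) (F : ι → Pt T D → ℝ),
    (∀ i ∈ S, PF β J0 K (F i)) → PF β J0 K (fun φ => ∏ i ∈ S, F i φ)) ∧
  (∀ (β T D : ℕ) (J0 K : Finset (Fin T)) (F : Pt T D → ℝ), PF β J0 K F → ∀ φ, |F φ| ≤ 1)

/-- packet BERN -/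
def BernStmt : Prop := ∀ (Ω : Type) [Fintype Ω] [Nonempty Ω] (N : ℕ) (Z : Ω → ℝ) (p t : ℝ),
  (∀ ω, |Z ω| ≤ 1) → avg univ (fun ω => Z ω ^ 2) ≤ p → 0 < p → 0 < t → t ≤ 1 →
  ((univ.filter (fun x : Fin N → Ω => t * p * N ≤ |∑ i, Z (x i) - N * avg univ Z|)).card : ℝ)
    ≤ 2 * Real.exp (-(t ^ 2 * p * N / 4)) * (Fintype.card Ω : ℝ) ^ N

/-- packet UNI : pseudo-randomness for sign functions, by a union bound -/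
def UniStmt : Prop := ∀ (β k T : ℕ) (t : ℝ), 0 < t → t ≤ 1 → ∃ D0 : ℕ, ∀ D ≥ D0,
  ∃ x : Fin (D ^ (β + 1)) → Pt T D, ∀ (J0 K : Finset (Fin T)) (a : Pt T D)
    (g : Finset (Fin T) → Pt T D → ℝ), J0 ⊆ K → J0.card ≤ β → K.card ≤ k →
    (∀ J φ, g J φ = 1 ∨ g J φ = -1) → (∀ J, Dep J (g J)) →
    |∑ i ∈ cell x J0 a, ∏ J ∈ K.powerset.filter (fun J => J0 ⊆ J ∧ J.card ≤ β), g J (x i) -
      (D : ℝ) ^ (β + 1 - J0.card) * avg (blk J0 a)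
        (fun φ => ∏ J ∈ K.powerset.filter (fun J => J0 ⊆ J ∧ J.card ≤ β), g J φ)|
      ≤ t * (D : ℝ) ^ (β + 1 - J0.card)

/-- packet PRND -/
def PrndStmt : Prop := ∀ (β k T : ℕ) (η : ℝ), 0 < η → ∃ D0 : ℕ, ∀ D ≥ D0,
  ∃ x : Fin (D ^ (β + 1)) → Pt T D, PR β k η x ∧ CB β η x

/-- packet WR : weak regularity -/
def WRStmt : Prop := ∀ (Q r : ℕ) (ε : ℝ), 1 ≤ r → 0 < ε → ∃ L : ℕ, 1 ≤ L ∧
  ∀ (α : Type) (B : Finset α) (col : Fin Q → Fin Q → α → α → Fin r),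
  ∃ ℓ : Fin Q → α → Fin L, ∀ p q c,
    box4 B B (fun i j => (if col p q i j = c then 1 else 0) -
      Wc B (ℓ p) (ℓ q) (col p q) c (ℓ p i) (ℓ q j)) ≤ ε

/-- packet BES : Bessel's inequality for typical cells -/
def BesStmt : Prop := ∀ (β k m T D N : ℕ) (η : ℝ) (x : Fin N → Pt T D), 1 ≤ m → 0 ≤ η → η ≤ 1 →
  PR β k η x → (∀ (J : Finset (Fin T)) (a : Pt T D), J.card ≤ β → (cell x J a).Nonempty) →
  ∀ (U : Finset (Fin T)) (a : Pt T D) (J : Fin m → Finset (Fin T)),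
  (∀ l, Disjoint U (J l)) → (∀ l l', l ≠ l' → Disjoint (J l) (J l')) →
  (∀ l, (U ∪ J l).card ≤ β) → (∀ l l', (U ∪ J l ∪ J l').card ≤ k) →
  ∀ g : Fin N → ℝ, (∀ i, |g i| ≤ 1) →
  ∑ l, avg (blk U a) (fun φ => (avg (cell x (U ∪ J l) φ) g) ^ 2) ≤
    m * ((avg (cell x U a) g) ^ 2 + (√(1 / m + 4 * η) + η))

/-- packet CBOX : box norms on typical pairs of cells -/
def CboxStmt : Prop := ∀ (β k m T D N : ℕ) (η : ℝ) (x : Fin N → Pt T D), 1 ≤ m → 0 ≤ η → η ≤ 1 →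
  PR β k η x → (∀ (J : Finset (Fin T)) (a : Pt T D), J.card ≤ β → (cell x J a).Nonempty) →
  ∀ (U : Finset (Fin T)) (a : Pt T D) (J J' : Fin m → Finset (Fin T)),
  (∀ l, Disjoint U (J l)) → (∀ l, Disjoint U (J' l)) →
  (∀ l l', l ≠ l' → Disjoint (J l) (J l')) → (∀ l l', l ≠ l' → Disjoint (J' l) (J' l')) →
  (∀ l l', Disjoint (J l) (J' l')) →
  (∀ l, (U ∪ J l).card ≤ β) → (∀ l, (U ∪ J' l).card ≤ β) →
  (∀ l l', (U ∪ J l ∪ J l').card ≤ k) → (∀ l l', (U ∪ J' l ∪ J' l').card ≤ k) →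
  ∀ F : Fin N → Fin N → ℝ, (∀ i j, |F i j| ≤ 1) →
  ∑ l, ∑ l', avg (blk U a) (fun φ => box4 (cell x (U ∪ J l) φ) (cell x (U ∪ J' l') φ) F) ≤
    (m : ℝ) ^ 2 * (box4 (cell x U a) (cell x U a) F + 2 * (√(1 / m + 4 * η) + η))

/-- packet DL : decoupling -/
def DLStmt : Prop := ∀ (β k m T D N : ℕ) (η : ℝ) (x : Fin N → Pt T D), 1 ≤ m → 0 ≤ η → 0 < N →
  PR β k η x →
  ∀ (I : Finset (Fin T)) (g : Fin N → ℝ), I.card ≤ β → (∀ i, |g i| ≤ 1) →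
  (∀ a : Pt T D, ∑ i ∈ cell x I a, g i = 0) →
  ∀ (A : Fin m → Finset (Fin T)) (F : Fin m → Pt T D → ℝ), (∀ l, Disjoint I (A l)) →
  (∀ l l', l ≠ l' → Disjoint (A l) (A l')) → (∀ l l', (I ∪ A l ∪ A l').card ≤ k) →
  (∀ l, PF β ∅ (I ∪ A l) (F l)) →
  ∑ l, |avg univ (fun i => g i * F l (x i))| ≤ m * √(4 / m + 4 * η)

/-- packet FRAME : averaging over permutations -/
def FrameStmt : Prop := ∀ (k M T : ℕ) (hM : 0 < M), 3 * M * k ≤ T →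
  ∀ (𝒯 : Type) [Fintype 𝒯] (part : 𝒯 → Fin k → Fin 3) (Df : 𝒯 → (Fin k → Fin T) → ℝ)
    (ϱ : 𝒯 → ℝ), (∀ τ κ, 0 ≤ Df τ κ) →
  (∀ (τ : 𝒯) (Φ : Fin 3 → Fin M → Fin k → Fin T),
    (∀ i l j i' l' j', Φ i l j = Φ i' l' j' → i = i' ∧ l = l' ∧ j = j') →
    ∑ l : Fin M, ∑ l' : Fin M, Df τ (fun j => Φ (part τ j)
      (if part τ j = 0 then ⟨0, hM⟩ else if part τ j = 1 then l else l') j) ≤ (M : ℝ) ^ 2 * ϱ τ) →
  ∃ κ : Fin k → Fin T, Injective κ ∧ ∑ τ, Df τ κ ≤ ∑ τ, ϱ τ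

/-- indicator of the label vector `ϑ` on the blocks inside `I` -/
noncomputable def ind {N Q L k : ℕ} (s : ℕ) (lab : Fin Q → Finset (Fin k) → Fin N → Fin L)
    (q : Fin Q) (I : Finset (Fin k)) (ϑ : Finset (Fin k) → Fin L) (i : Fin N) : ℝ :=
  if ∀ U : Finset (Fin k), U ⊆ I → U.card = s → lab q U i = ϑ U then 1 else 0

/-- labels do not correlate with the other coordinates of `κ` -/
def XGood {T D N Q L k : ℕ} (β s : ℕ) (γ : ℝ) (x : Fin N → Pt T D) (κ : Fin k → Fin T)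
    (lab : Fin Q → Finset (Fin k) → Fin N → Fin L) : Prop :=
  ∀ (q : Fin Q) (I : Finset (Fin k)) (ϑ : Finset (Fin k) → Fin L) (F : Pt T D → ℝ), I.card = β →
    PF β ∅ (univ.image κ) F →
    |avg univ (fun i => (ind s lab q I ϑ i - avg (cell x (I.image κ) (x i)) (ind s lab q I ϑ)) *
      F (x i))| ≤ γ

/-- the map `κ` obtained from a frame -/
def frm {k M T : ℕ} (hM : 0 < M) (Φ : Fin 3 → Fin M → Fin k → Fin T) (part : Fin k → Fin 3)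
    (l l' : Fin M) : Fin k → Fin T :=
  fun j => Φ (part j) (if part j = 0 then ⟨0, hM⟩ else if part j = 1 then l else l') j

/-- packet KY -/
def KYStmt : Prop := ∀ (β s k Q r L M T D N : ℕ) (hM : 0 < M) (η ε' : ℝ) (x : Fin N → Pt T D)
  (f : Fin Q × Fin N → Fin Q × Fin N → Fin r) (lab : Fin Q → Finset (Fin T) → Fin N → Fin L),
  s ≤ β → β ≤ k → 1 ≤ r → 0 < N → 0 ≤ η → η ≤ 1 → PR β (2 * k) η x →
  (∀ (J : Finset (Fin T)) (a : Pt T D), J.card ≤ β → (cell x J a).Nonempty) →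
  (∀ (U : Finset (Fin T)) (a : Pt T D) (p q : Fin Q) (c : Fin r), U.card = s →
    box4 (cell x U a) (cell x U a) (Ferr x f lab U a p q c) ≤ ε') →
  ∀ (Φ : Fin 3 → Fin M → Fin k → Fin T),
    (∀ i l j i' l' j', Φ i l j = Φ i' l' j' → i = i' ∧ l = l' ∧ j = j') →
  ∀ (part : Fin k → Fin 3) (U J J' : Finset (Fin k)) (p q : Fin Q) (c : Fin r),
    U.card = s → J.card = β - s → J'.card = β - s →
    (∀ j ∈ U, part j = 0) → (∀ j ∈ J, part j = 1) → (∀ j ∈ J', part j = 2) →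
    ∑ l : Fin M, ∑ l' : Fin M, avg univ (fun φ : Pt T D =>
      box4 (cell x ((U ∪ J).image (frm hM Φ part l l')) φ)
        (cell x ((U ∪ J').image (frm hM Φ part l l')) φ)
        (Ferr x f lab (U.image (frm hM Φ part l l')) φ p q c)) ≤
      (M : ℝ) ^ 2 * (ε' + 2 * (√(1 / M + 4 * η) + η))

/-- packet KX -/
def KXStmt : Prop := ∀ (β s k Q L M T D N : ℕ) (hM : 0 < M) (η γ : ℝ) (x : Fin N → Pt T D)
  (lab : Fin Q → Finset (Fin T) → Fin N → Fin L),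
  β ≤ k → 0 < N → 0 ≤ η → 0 < γ → η ≤ γ ^ 2 / 8 → PR β (2 * k) η x →
  ∀ (Φ : Fin 3 → Fin M → Fin k → Fin T),
    (∀ i l j i' l' j', Φ i l j = Φ i' l' j' → i = i' ∧ l = l' ∧ j = j') →
  ∀ (part : Fin k → Fin 3) (I : Finset (Fin k)) (q : Fin Q) (ϑ : Finset (Fin k) → Fin L)
    (l' : Fin M), I.card = β → (∀ j ∈ I, part j = 0) → (∀ j, j ∉ I → part j = 1) →
    ((univ.filter (fun l : Fin M => ∃ F : Pt T D → ℝ,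
      PF β ∅ (univ.image (frm hM Φ part l l')) F ∧
      γ < |avg univ (fun i => (ind s (fun q U => lab q (U.image (frm hM Φ part l l'))) q I ϑ i -
        avg (cell x (I.image (frm hM Φ part l l')) (x i))
          (ind s (fun q U => lab q (U.image (frm hM Φ part l l'))) q I ϑ)) * F (x i))|)).card : ℝ)
      ≤ 8 / γ ^ 2

/-- packet KAPPA : choice of the coordinates -/
def KappaStmt : Prop := ∀ (β s k Q r L M T D N : ℕ) (η ε' ε1 γ : ℝ) (x : Fin N → Pt T D)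
  (f : Fin Q × Fin N → Fin Q × Fin N → Fin r) (lab : Fin Q → Finset (Fin T) → Fin N → Fin L),
  s ≤ β → β ≤ k → 1 ≤ M → 1 ≤ r → 3 * M * k ≤ T → 0 < N → 0 ≤ η → η ≤ 1 → 0 ≤ ε' → 0 < ε1 → 0 < γ →
  η ≤ γ ^ 2 / 8 → PR β (2 * k) η x →
  (∀ (J : Finset (Fin T)) (a : Pt T D), J.card ≤ β → (cell x J a).Nonempty) →
  (∀ (U : Finset (Fin T)) (a : Pt T D) (p q : Fin Q) (c : Fin r), U.card = s →
    box4 (cell x U a) (cell x U a) (Ferr x f lab U a p q c) ≤ ε') →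
  (2 : ℝ) ^ (3 * k) * Q ^ 2 * r * ((ε' + 2 * (√(1 / M + 4 * η) + η)) / ε1) +
    (Q : ℝ) * 2 ^ k * (L : ℝ) ^ (2 ^ k) * (8 / (γ ^ 2 * M)) < 1 →
  ∃ κ : Fin k → Fin T, Injective κ ∧
    (∀ (U J J' : Finset (Fin k)) (p q : Fin Q) (c : Fin r), U.card = s → J.card = β - s →
      J'.card = β - s → Disjoint U J → Disjoint U J' → Disjoint J J' →
      avg univ (fun φ : Pt T D => box4 (cell x ((U ∪ J).image κ) φ) (cell x ((U ∪ J').image κ) φ)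
        (Ferr x f lab (U.image κ) φ p q c)) ≤ ε1) ∧
    XGood β s γ x κ (fun q U => lab q (U.image κ))

/-- packet CNT : counting with box norms -/
def CntStmt : Prop := ∀ (ι α : Type) [Fintype ι] (A : ι → Finset α) (P : Finset (ι × ι))
  (a b : ι × ι → α → α → ℝ), (∀ i, (A i).Nonempty) → (∀ e ∈ P, e.1 ≠ e.2 ∧ (e.2, e.1) ∉ P) →
  (∀ e y z, 0 ≤ a e y z ∧ a e y z ≤ 1 ∧ 0 ≤ b e y z ∧ b e y z ≤ 1) →
  |avg (Fintype.piFinset A) (fun y => ∏ e ∈ P, a e (y e.1) (y e.2)) -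
    avg (Fintype.piFinset A) (fun y => ∏ e ∈ P, b e (y e.1) (y e.2))| ≤
    ∑ e ∈ P, (box4 (A e.1) (A e.2) (fun y z => a e y z - b e y z)) ^ ((1 : ℝ) / 4)

/-- packet RAMI -/
def RamiStmt : Prop := ∀ (r s T0 h b : ℕ), 1 ≤ r →
  ∃ Q k : ℕ, 1 ≤ Q ∧ 1 ≤ k ∧ b ≤ k ∧ RamOK r s T0 h Q k

/-- packet TV -/
def TVStmt : Prop := ∀ (ι α Θ : Type) [Fintype ι] [Fintype Θ] (A B : ι → Finset α)
  (lab : ι → α → Θ) (ψ : (ι → Θ) → ℝ), (∀ i, (A i).Nonempty) → (∀ i, (B i).Nonempty) →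
  (∀ v, 0 ≤ ψ v ∧ ψ v ≤ 1) →
  |avg (Fintype.piFinset A) (fun y => ψ (fun i => lab i (y i))) -
    avg (Fintype.piFinset B) (fun y => ψ (fun i => lab i (y i)))| ≤
    ∑ i, ∑ ϑ : Θ, |avg (A i) (fun z => if lab i z = ϑ then 1 else 0) -
      avg (B i) (fun z => if lab i z = ϑ then 1 else 0)|

/-- packet RND : rounding -/
def RndStmt : Prop := ∀ (β T D : ℕ) (K : Finset (Fin T)) (ι : Type) [Fintype ι]
  (h : ι → Pt T D → ℝ) (J : ι → Finset (Fin T)) (R : ℕ), 1 ≤ R →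
  (∀ i φ, 0 ≤ h i φ ∧ h i φ ≤ 1) → (∀ i, Dep (J i) (h i)) → (∀ i, (J i).card ≤ β ∧ J i ⊆ K) →
  ∃ s : Pt T D → (ι → Fin (R + 1)), (∀ i φ ψ, s φ = s ψ → |h i φ - h i ψ| ≤ 1 / R) ∧
    ∀ v, PF β ∅ K (fun φ => if s φ = v then 1 else 0)

/-- packet VIRT : virtual points -/
def VirtStmt : Prop := ∀ (r s β T0 Q k L : ℕ), 1 ≤ r → s < β → 1 ≤ Q → 1 ≤ k → β ≤ k → 1 ≤ L →
  RamOK r s T0 (Fintype.card (Idx T0 β)) Q k → ∃ γ0 : ℝ, 0 < γ0 ∧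
  ∀ (T D N : ℕ) (x : Fin N → Pt T D) (κ : Fin k → Fin T)
    (lab : Fin Q → Finset (Fin k) → Fin N → Fin L)
    (W : Fin r → Fin Q → Fin Q → Finset (Fin k) → Pt T D → Fin L → Fin L → ℝ),
    0 < N → 0 < D → Injective κ → PR β k γ0 x →
    (∀ (J : Finset (Fin T)) (a : Pt T D), J.card ≤ β → (cell x J a).Nonempty) →
    XGood β s γ0 x κ lab →
    (∀ c p q U φ a b, 0 ≤ W c p q U φ a b) → (∀ p q U φ a b, ∑ c, W c p q U φ a b = 1) →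
    (∀ c p q U a b, Dep (U.image κ) (fun φ => W c p q U φ a b)) →
    ∃ (c : Fin r) (j0 : Fin T0 → Fin k) (q : Idx T0 β → Fin Q), StrictMono j0 ∧ Injective q ∧
      1 / (2 * (r : ℝ) * (Q : ℝ) ^ (Fintype.card (Idx T0 β)) * (k : ℝ) ^ T0) ≤
        DensW s x κ lab W c j0 q

/-- packet DENS : the host has many monochromatic templates (density form) -/
def DensStmt : Prop := ∀ (β s T0 r : ℕ), 1 ≤ s → s < β → 1 ≤ r →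
  ∃ (T Q : ℕ) (δ η : ℝ), 0 < δ ∧ 0 < η ∧ η ≤ 1 / 2 ∧ ∀ (D : ℕ) (x : Fin (D ^ (β + 1)) → Pt T D),
    0 < D → PR β (2 * T) η x → CB β η x →
    ∀ f : Fin Q × Fin (D ^ (β + 1)) → Fin Q × Fin (D ^ (β + 1)) → Fin r, (∀ a b, f a b = f b a) →
      ∃ (c : Fin r) (κ : Fin T0 → Fin T) (q : Idx T0 β → Fin Q), Injective κ ∧ Injective q ∧
        δ ≤ Dens s x f c κ q

/-- packet NUMT : from densities to numbers -/
def NumTStmt : Prop := ∀ (β s T0 r T D Q : ℕ) (δ : ℝ) (x : Fin (D ^ (β + 1)) → Pt T D)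
  (f : Fin Q × Fin (D ^ (β + 1)) → Fin Q × Fin (D ^ (β + 1)) → Fin r) (c : Fin r)
  (κ : Fin T0 → Fin T) (q : Idx T0 β → Fin Q), s < β → 0 < D → CB β (1 / 2) x →
  (∀ a b, f a b = f b a) → Injective κ → Injective q → δ ≤ Dens s x f c κ q →
  δ / 2 ^ (Fintype.card (Idx T0 β)) * (D : ℝ) ^ (T0 + Fintype.card (Idx T0 β)) ≤
    (numT s x f c κ q : ℝ)

/-- packet HOST -/
def HostStmt : Prop := ∀ (β s T0 r : ℕ), 1 ≤ s → s < β → 1 ≤ r →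
  ∃ (T Q : ℕ) (δ : ℝ) (D0 : ℕ), 0 < δ ∧ ∀ D : ℕ, D0 ≤ D →
    ∃ x : Fin (D ^ (β + 1)) → Pt T D,
      (∀ (J : Finset (Fin T)) (a : Pt T D), J.card ≤ β →
        ((cell x J a).card : ℝ) ≤ 2 * (D : ℝ) ^ (β + 1 - J.card)) ∧
      ∀ f : Fin Q × Fin (D ^ (β + 1)) → Fin Q × Fin (D ^ (β + 1)) → Fin r,
        (∀ a b, f a b = f b a) →
        ∃ (c : Fin r) (κ : Fin T0 → Fin T) (q : Idx T0 β → Fin Q), Injective κ ∧ Injective q ∧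
          δ * (D : ℝ) ^ (T0 + Fintype.card (Idx T0 β)) ≤ (numT s x f c κ q : ℝ)

/-! ### Part E : the embedding -/

/-- packet DRC : dependent random choice -/
def DrcStmt : Prop := ∀ (A W : Type) [Fintype A] [Fintype W] [Nonempty W] (G : Finset (A × W))
  (p τ : ℝ) (t d : ℕ), 0 < p → p ≤ 1 → 0 ≤ τ →
  p * Fintype.card A * Fintype.card W ≤ G.card →
  ((Fintype.card A : ℝ) + 1) ^ d * τ ^ t ≤ p ^ t / 2 →
  ∃ A' : Finset A, p ^ t / 2 * Fintype.card A ≤ A'.card ∧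
    ∀ S : Finset A, S ⊆ A' → S.card ≤ d →
      τ * Fintype.card W ≤ ((univ.filter (fun w : W => ∀ e ∈ S, (e, w) ∈ G)).card : ℝ)

/-- packet NEST -/
def NestStmt : Prop := ∀ (l d : ℕ) (δ ε : ℝ), 0 < δ → 0 < ε → ∃ M0 : ℕ, ∀ M ≥ M0,
  ∀ 𝓖 : Finset (Fin l → Fin M), δ * (M : ℝ) ^ l ≤ 𝓖.card →
    ∃ G : (j : ℕ) → Finset (Fin j → Fin M), Nest l M d ((M : ℝ) ^ (1 - ε)) G ∧ G l = 𝓖

/-- packet GREEDY : greedy embedding with loads -/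
def GreedyStmt : Prop := ∀ (l M d K M1 β : ℕ) (κ : ℝ) (G : (j : ℕ) → Finset (Fin j → Fin M)),
  Nest l M d κ G → (K : ℝ) * M1 < κ →
  ∀ (E Y V : Type) [Fintype E] [Fintype Y] [Fintype V] (slot : Fin l → E → Y) (e : V → E)
    (act : V → Finset (Fin l)),
  (∀ j y, (univ.filter (fun ed => slot j ed = y)).card ≤ d) → (∀ v, (act v).card = β) →
  Fintype.card V ≤ M1 ^ β →
  (∀ j y, (univ.filter (fun v => j ∈ act v ∧ slot j (e v) = y)).card ≤ K) →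
  (∀ j v w, v ≠ w → j ∈ act v → act v = act w → slot j (e v) ≠ slot j (e w)) →
  ∃ b : Fin l → Y → Fin M, (∀ ed, (fun j => b j (slot j ed)) ∈ G l) ∧
    ∀ v w, v ≠ w → act v = act w → ∃ j ∈ act v, b j (slot j (e v)) ≠ b j (slot j (e w))

/-- packet TYPE : colouring of the sets of a cover -/
def TypeStmt : Prop := ∀ (ι V : Type) [Fintype ι] [Fintype V] (X : ι → Finset V) (K β : ℕ),
  (∀ j, (X j).card ≤ K) → (∀ v, (univ.filter (fun j => v ∈ X j)).card ≤ β) →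
  ∃ τ : ι → Fin (K ^ 2 * β ^ 2 + 1), ∀ i j, i ≠ j →
    (∃ (k : ι) (v w : V), v ∈ X i ∧ v ∈ X k ∧ w ∈ X j ∧ w ∈ X k) → τ i ≠ τ j

/-- packet SLOT -/
def SlotStmt : Prop := ∀ (n Δ β s K : ℕ) (H : SimpleGraph (Fin n)), MaxDeg H Δ → 1 ≤ s → s < β →
  0 < K → HasCover H β s K →
  ∃ (E Y : Type) (_ : Fintype E) (_ : Fintype Y)
    (slot : Fin (K ^ 2 * β ^ 2 + 1 + Fintype.card (Idx (K ^ 2 * β ^ 2 + 1) β)) → E → Y)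
    (typ : Fin n → Idx (K ^ 2 * β ^ 2 + 1) β) (e : Fin n → Fin n → E),
    (∀ j y, (univ.filter (fun ed => slot j ed = y)).card ≤ 2 * K * (Δ + 1)) ∧
    (∀ v w, H.Adj v w → ∀ j ∈ (typ v).1,
      slot (Fin.castAdd _ j) (e v w) = slot (Fin.castAdd _ j) (e v v)) ∧
    (∀ v w, H.Adj v w → ∀ j ∈ (typ w).1,
      slot (Fin.castAdd _ j) (e v w) = slot (Fin.castAdd _ j) (e w w)) ∧
    (∀ v w, H.Adj v w → slot (Fin.natAdd _ (Fintype.equivFin _ (typ v))) (e v w) =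
      slot (Fin.natAdd _ (Fintype.equivFin _ (typ v))) (e v v)) ∧
    (∀ v w, H.Adj v w → slot (Fin.natAdd _ (Fintype.equivFin _ (typ w))) (e v w) =
      slot (Fin.natAdd _ (Fintype.equivFin _ (typ w))) (e w w)) ∧
    (∀ v w, H.Adj v w → ((typ v).1 ∩ (typ w).1).card = s) ∧
    (∀ (j : Fin (K ^ 2 * β ^ 2 + 1)) (y : Y),
      (univ.filter (fun v => j ∈ (typ v).1 ∧ slot (Fin.castAdd _ j) (e v v) = y)).card ≤ K) ∧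
    (∀ (j : Fin (K ^ 2 * β ^ 2 + 1)) (v w : Fin n), v ≠ w → j ∈ (typ v).1 → typ v = typ w →
      slot (Fin.castAdd _ j) (e v v) ≠ slot (Fin.castAdd _ j) (e w w))

/-- packet TOG : templates as tuples -/
def TogStmt : Prop := ∀ (β s T0 r T D N Q : ℕ) (δ : ℝ) (x : Fin N → Pt T D)
  (f : Fin Q × Fin N → Fin Q × Fin N → Fin r) (c : Fin r) (κ : Fin T0 → Fin T)
  (q : Idx T0 β → Fin Q), 0 < D → 0 < δ → Injective κ →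
  (∀ (J : Finset (Fin T)) (a : Pt T D), J.card = β → ((cell x J a).card : ℝ) ≤ 2 * D) →
  δ * (D : ℝ) ^ (T0 + Fintype.card (Idx T0 β)) ≤ (numT s x f c κ q : ℝ) →
  ∃ (en : Idx T0 β → (Fin T0 → Fin D) → Fin (2 * D) → Fin N)
    (𝓖 : Finset (Fin (T0 + Fintype.card (Idx T0 β)) → Fin (2 * D))),
    (∀ (I : Idx T0 β) (a a' : Fin T0 → Fin D) (l : Fin (2 * D)), (∀ j ∈ I.1, a j = a' j) →
      en I a l = en I a' l) ∧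
    δ * (D : ℝ) ^ (T0 + Fintype.card (Idx T0 β)) ≤ 𝓖.card ∧
    ∀ g ∈ 𝓖, ∃ φ : Fin T0 → Fin D, (∀ i, ((φ i : ℕ) = (g (Fin.castAdd _ i) : ℕ))) ∧
      IsTemplate s x f c κ q φ
        (fun I => en I φ (g (Fin.natAdd T0 (Fintype.equivFin (Idx T0 β) I))))

/-- packet EMBED -/
def EmbedStmt : Prop := ∀ (Δ β s K r : ℕ) (δ ε : ℝ), 1 ≤ s → s < β → 0 < K → 0 < δ → 0 < ε →
  ∃ D1 : ℕ, ∀ D, D1 ≤ D → ∀ (T N Q : ℕ) (x : Fin N → Pt T D)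
    (f : Fin Q × Fin N → Fin Q × Fin N → Fin r) (c : Fin r)
    (κ : Fin (K ^ 2 * β ^ 2 + 1) → Fin T) (q : Idx (K ^ 2 * β ^ 2 + 1) β → Fin Q),
    (∀ a b, f a b = f b a) → Injective κ → Injective q →
    (∀ (J : Finset (Fin T)) (a : Pt T D), J.card = β → ((cell x J a).card : ℝ) ≤ 2 * D) →
    δ * (D : ℝ) ^ (K ^ 2 * β ^ 2 + 1 + Fintype.card (Idx (K ^ 2 * β ^ 2 + 1) β)) ≤
      (numT s x f c κ q : ℝ) →
    ∀ (n M1 : ℕ) (H : SimpleGraph (Fin n)), MaxDeg H Δ → HasCover H β s K →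
      (K : ℝ) * M1 < ((2 * D : ℕ) : ℝ) ^ (1 - ε) → n ≤ M1 ^ β →
      ∃ g : Fin n → Fin Q × Fin N, Injective g ∧ ∀ u v, H.Adj u v →
        f (g u) (g v) = c ∧ (g u).1 ≠ (g v).1 ∧
        ∃ U : Finset (Fin T), U.card = s ∧ ∀ t ∈ U, x (g u).2 t = x (g v).2 t

/-- packet MAIN -/
def MainStmt : Prop := ∀ (r Δ : ℕ), 1 ≤ r → 3 ≤ Δ → ∀ ε : ℝ, 0 < ε → ∃ C : ℝ, ∀ n : ℕ, 1 ≤ n →
  ∃ (V : Type) (_ : Fintype V) (G : SimpleGraph V),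
    ((univ.filter (fun p : V × V => G.Adj p.1 p.2)).card : ℝ) ≤
      C * (n : ℝ) ^ (2 - 2 / (Δ : ℝ) + ε) ∧
    ∀ χ : V → V → Fin r, (∀ a b, χ a b = χ b a) → ∃ c, ∀ H : SimpleGraph (Fin n), MaxDeg H Δ →
      ∃ g : Fin n → V, Injective g ∧ ∀ u v, H.Adj u v → G.Adj (g u) (g v) ∧ χ (g u) (g v) = c

end Pool.Agent.Helper34.PU
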