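import Pool.Agent.Helper34.PU.Edge

/-!
Grids have covers with ratio tending to 1.
-/

set_option autoImplicit false

open Finset Function
open scoped Classical

namespace Pool.Agent.Helper34.PU

/-- the `d`-dimensional grid graph with side `n` : vertex set `[n]^d`, two vertices are adjacent when
they differ in exactly one coordinate, and there by exactly 1 -/
def grid (d n : ℕ) : SimpleGraph (Fin d → Fin n) where
  Adj u v := ∃ i, ((u i : ℕ) + 1 = v i ∨ (v i : ℕ) + 1 = u i) ∧ ∀ j, j ≠ i → u j = v j
  symm := by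
    constructor
    rintro u v ⟨i, h1, h2⟩
    exact ⟨i, h1.symm, fun j hj => (h2 j hj).symm⟩
  loopless := ⟨fun u h => by obtain ⟨i, h1, -⟩ := h; omega⟩

theorem grid_maxDeg (d n : ℕ) : MaxDeg (grid d n) (2 * d) := by
  intro u
  -- every neighbour is determined by the coordinate and the direction
  have hsub : nbr (grid d n) u ⊆ ((univ : Finset (Fin d × Bool)).biUnion (fun p =>
      univ.filter (fun v : Fin d → Fin n => (∀ j, j ≠ p.1 → u j = v j) ∧
        (if p.2 then (u p.1 : ℕ) + 1 = v p.1 else (v p.1 : ℕ) + 1 = u p.1)))) := by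
    intro v hv
    simp only [nbr, mem_filter, mem_univ, true_and] at hv
    obtain ⟨i, h1, h2⟩ := hv
    simp only [mem_biUnion, mem_univ, true_and, mem_filter]
    rcases h1 with h1 | h1
    · exact ⟨(i, true), h2, by simpa using h1⟩
    · exact ⟨(i, false), h2, by simpa using h1⟩
  refine le_trans (card_le_card hsub) (le_trans card_biUnion_le ?_)
  have hone : ∀ p ∈ (univ : Finset (Fin d × Bool)), (univ.filter (fun v : Fin d → Fin n =>
      (∀ j, j ≠ p.1 → u j = v j) ∧
        (if p.2 then (u p.1 : ℕ) + 1 = v p.1 else (v p.1 : ℕ) + 1 = u p.1))).card ≤ 1 := by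
    intro p _
    rw [card_le_one]
    intro v hv w hw
    simp only [mem_filter, mem_univ, true_and] at hv hw
    funext j
    by_cases hj : j = p.1
    · subst hj
      apply Fin.ext
      rcases hp : p.2 with _ | _
      · rw [hp] at hv hw
        simp only [Bool.false_eq_true, if_false] at hv hw
        omega
      · rw [hp] at hv hw
        simp only [if_true] at hv hw
        omega
    · rw [← hv.1 j hj, ← hw.1 j hj]
  refine le_trans (sum_le_sum hone) ?_
  simp [mul_comm]

/-- transport of covers -/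
theorem hasCover_equiv {V W : Type} [Fintype V] [Fintype W] (e : W ≃ V) (H : SimpleGraph V)
    (β s K : ℕ) (h : HasCover H β s K) : HasCover (H.comap e) β s K := by
  obtain ⟨ι, hι, X, hK, hb, hs, h1⟩ := h
  refine ⟨ι, hι, fun j => (X j).map e.symm.toEmbedding, fun j => ?_, fun v => ?_,
    fun u v huv => ?_, fun v => ?_⟩
  · rw [card_map]; exact hK j
  · rw [← hb (e v)]
    congr 1
    ext j
    simp only [mem_filter, mem_univ, true_and, mem_map_equiv, Equiv.symm_symm]
  · rw [← hs (e u) (e v) huv]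
    congr 1
    ext j
    simp only [mem_filter, mem_univ, true_and, mem_map_equiv, Equiv.symm_symm]
  · obtain ⟨j, hj⟩ := h1 (e v)
    refine ⟨j, ?_⟩
    dsimp only
    rw [hj, map_singleton]
    simp

theorem maxDeg_equiv {V W : Type} [Fintype V] [Fintype W] (e : W ≃ V) (H : SimpleGraph V)
    (Δ : ℕ) (h : MaxDeg H Δ) : MaxDeg (H.comap e) Δ := by
  intro v
  refine le_trans (le_of_eq ?_) (h (e v))
  rw [← card_map e.toEmbedding]
  congr 1
  ext y
  simp only [nbr, mem_map_equiv, mem_filter, mem_univ, true_and, SimpleGraph.comap_adj,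
    Equiv.apply_symm_apply]

theorem card_sum_filter {A B : Type} [Fintype A] [Fintype B] (P : A ⊕ B → Prop)
    [DecidablePred P] : (univ.filter P).card =
      (univ.filter (fun a => P (Sum.inl a))).card + (univ.filter (fun b => P (Sum.inr b))).card := by
  rw [card_filter, Fintype.sum_sum_type, ← card_filter, ← card_filter]

theorem hasCover_mk {V : Type} [Fintype V] (H : SimpleGraph V) (β s K : ℕ) (ι : Type)
    (hι : Fintype ι) (X : ι → Finset V) (h1 : ∀ j, (X j).card ≤ K)
    (h2 : ∀ v, Nat.card {j // v ∈ X j} = β)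
    (h3 : ∀ u v, H.Adj u v → Nat.card {j // u ∈ X j ∧ v ∈ X j} = s)
    (h4 : ∀ v, ∃ j, X j = {v}) : HasCover H β s K := by
  refine ⟨ι, hι, X, h1, fun v => ?_, fun u v huv => ?_, h4⟩
  · rw [← h2 v, Nat.card_eq_fintype_card, Fintype.card_subtype]
  · rw [← h3 u v huv, Nat.card_eq_fintype_card, Fintype.card_subtype]

/-- block decomposition -/
theorem grid_cover (d n L : ℕ) (hL : 2 ≤ L) :
    HasCover (grid d n) (L ^ d + 1) ((L - 1) * L ^ (d - 1)) (L ^ d) := by
  have hL0 : 0 < L := by omega
  set blkX : (Fin d → Fin L) × (Fin d → Fin (n + 1)) → Finset (Fin d → Fin n) := fun p =>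
    univ.filter (fun v => ∀ i, ((v i : ℕ) + p.1 i) / L = p.2 i) with hblk
  have hlt : ∀ (a : Fin d → Fin L) (v : Fin d → Fin n) (i : Fin d),
      ((v i : ℕ) + a i) / L < n + 1 := by
    intro a v i
    rw [Nat.div_lt_iff_lt_mul hL0]
    have h1 := (v i).2
    have h2 := (a i).2
    calc (v i : ℕ) + a i < n + L := by omega
      _ ≤ (n + 1) * L := by
          have : n ≤ n * L := Nat.le_mul_of_pos_right n hL0
          nlinarith
  refine hasCover_mk _ _ _ _ (((Fin d → Fin L) × (Fin d → Fin (n + 1))) ⊕ (Fin d → Fin n))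
    inferInstance (Sum.elim blkX (fun v => {v})) ?_ ?_ ?_ ?_
  · rintro (p | v)
    · -- size
      simp only [Sum.elim_inl]
      have hinj : (blkX p).card ≤ (univ : Finset (Fin d → Fin L)).card := by
        refine card_le_card_of_injOn
          (fun v i => ⟨((v i : ℕ) + p.1 i) % L, Nat.mod_lt _ hL0⟩) (fun _ _ => mem_univ _) ?_
        intro v hv w hw hvw
        simp only [hblk, coe_filter, mem_univ, true_and, Set.mem_ofPred_eq] at hv hw
        funext i
        have h1 := congrFun hvw i
        simp only [Fin.mk.injEq] at h1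
        have h2 := hv i
        have h3 := hw i
        apply Fin.ext
        have h4 := Nat.div_add_mod ((v i : ℕ) + p.1 i) L
        have h5 := Nat.div_add_mod ((w i : ℕ) + p.1 i) L
        rw [h2, h1] at h4
        rw [h3] at h5
        omega
      refine le_trans hinj ?_
      simp
    · simp only [Sum.elim_inr, card_singleton]
      exact Nat.one_le_pow _ _ hL0
  · intro v
    rw [Nat.card_eq_fintype_card, Fintype.card_subtype]
    refine Eq.trans (card_sum_filter _) (congrArg₂ (· + ·) ?_ ?_)
    · refine Eq.trans (congrArg card (?_ : _ = univ.image (fun a : Fin d → Fin L =>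
          (a, fun i => (⟨((v i : ℕ) + a i) / L, hlt a v i⟩ : Fin (n + 1)))))) ?_
      · ext ⟨a, b⟩
        simp only [hblk, mem_filter, mem_univ, true_and, mem_image, Prod.mk.injEq, Sum.elim_inl]
        constructor
        · intro h
          exact ⟨a, rfl, funext (fun i => Fin.ext (h i))⟩
        · rintro ⟨a', rfl, rfl⟩ i
          rfl
      · rw [card_image_of_injective]
        · simp
        · intro a a' h
          exact (Prod.mk.inj h).1
    · refine Eq.trans (congrArg card (?_ : _ = ({v} : Finset (Fin d → Fin n)))) (card_singleton v)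
      ext x; simp only [mem_filter, Sum.elim_inr, mem_univ, true_and, mem_singleton]
      exact eq_comm
  · intro u v huv
    have hne : u ≠ v := (grid d n).ne_of_adj huv
    rw [Nat.card_eq_fintype_card, Fintype.card_subtype]
    refine Eq.trans (card_sum_filter _)
      (Eq.trans (congrArg₂ (· + ·) ?_ ?_) (Nat.add_zero ((L - 1) * L ^ (d - 1))))
    swap
    · rw [card_eq_zero, filter_eq_empty_iff]
      intro x _
      simp only [Sum.elim_inr, mem_singleton]
      rintro ⟨rfl, rfl⟩
      exact hne rfl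
    obtain ⟨i, h1, h2⟩ := huv
    -- the critical residue
    set m : ℕ := max (u i : ℕ) (v i) with hm
    have hcrit : ∀ a : ℕ, ((u i : ℕ) + a) / L = ((v i : ℕ) + a) / L ↔ ¬ L ∣ m + a := by
      intro a
      have key : ∀ x : ℕ, (x + a) / L = (x + 1 + a) / L ↔ ¬ L ∣ x + 1 + a := by
        intro x
        have : x + 1 + a = (x + a) + 1 := by ring
        rw [this, Nat.succ_div]
        split_ifs with h
        · simp [h]
        · simp [h]
      rcases h1 with h1 | h1
      · have : m = (u i : ℕ) + 1 := by omega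
        rw [this, ← h1]; exact key _
      · have : m = (v i : ℕ) + 1 := by omega
        rw [this, ← h1, eq_comm]; exact key _
    -- the set of good shifts
    set a0 : Fin L := ⟨(L - m % L) % L, Nat.mod_lt _ hL0⟩ with ha0
    have hdvd : ∀ a : Fin L, L ∣ m + a ↔ a = a0 := by
      intro a
      have hml : m % L < L := Nat.mod_lt _ hL0
      rw [Nat.dvd_iff_mod_eq_zero, Nat.add_mod, Nat.mod_eq_of_lt a.2, Fin.ext_iff]
      simp only [ha0]
      have ha := a.2
      rcases Nat.eq_zero_or_pos (m % L) with h | h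
      · rw [h]; simp [Nat.mod_eq_of_lt ha]
      · have h5 : (L - m % L) % L = L - m % L := Nat.mod_eq_of_lt (by omega)
        rw [h5]
        constructor
        · intro h6
          by_contra h7
          rcases Nat.lt_or_ge (m % L + a) L with h8 | h8
          · rw [Nat.mod_eq_of_lt h8] at h6; omega
          · rw [Nat.mod_eq_sub_mod h8, Nat.mod_eq_of_lt (by omega)] at h6; omega
        · intro h6; rw [h6]
          have : m % L + (L - m % L) = L := by omega
          rw [this, Nat.mod_self]
    refine Eq.trans (congrArg card (?_ : _ =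
        (univ.filter (fun a : Fin d → Fin L => a i ≠ a0)).image (fun a : Fin d → Fin L =>
          (a, fun j => (⟨((v j : ℕ) + a j) / L, hlt a v j⟩ : Fin (n + 1)))))) ?_
    · ext ⟨a, b⟩
      simp only [hblk, mem_filter, mem_univ, true_and, mem_image, Prod.mk.injEq, Sum.elim_inl]
      constructor
      · rintro ⟨hu, hv⟩
        refine ⟨a, ?_, rfl, funext (fun j => Fin.ext (hv j))⟩
        intro h6
        have h7 := (hcrit (a i)).mp (by rw [hu i, hv i])
        exact h7 ((hdvd (a i)).mpr h6)
      · rintro ⟨a', h6, rfl, rfl⟩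
        refine ⟨fun j => ?_, fun j => rfl⟩
        by_cases hj : j = i
        · subst hj
          have h7 : ¬ L ∣ m + (a' j) := fun hh => h6 ((hdvd (a' j)).mp hh)
          exact (hcrit (a' j)).mpr h7
        · rw [h2 j hj]
    rw [card_image_of_injective]
    · -- number of good shifts
      have e2 : (univ.filter (fun a : Fin d → Fin L => a i ≠ a0)) =
          Fintype.piFinset (fun j => if j = i then univ.erase a0 else (univ : Finset (Fin L))) := by
        ext a
        simp only [mem_filter, mem_univ, true_and, Fintype.mem_piFinset]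
        constructor
        · intro h j
          split_ifs with hj
          · subst hj; simp [h]
          · simp
        · intro h
          have := h i
          simpa using this
      rw [e2, Fintype.card_piFinset]
      rw [← Finset.mul_prod_erase univ _ (mem_univ i)]
      rw [if_pos rfl, card_erase_of_mem (mem_univ _)]
      simp only [card_univ, Fintype.card_fin]
      congr 1
      rw [prod_congr rfl (g := fun _ => L)]
      · rw [prod_const, card_erase_of_mem (mem_univ _)]; simp
      · intro j hj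
        rw [if_neg (ne_of_mem_erase hj)]; simp
    · intro a a' h
      exact (Prod.mk.inj h).1
  · intro v
    exact ⟨Sum.inr v, rfl⟩

/-- host for grids -/
theorem grid_host (r d : ℕ) (hr : 1 ≤ r) (hd : 1 ≤ d) (ε : ℝ) (hε : 0 < ε) :
    ∃ C : ℝ, ∀ n : ℕ, 1 ≤ n → ∃ (V : Type) (_ : Fintype V) (G : SimpleGraph V),
      (∀ χ : G.edgeSet → Fin r, ∃ c : Fin r, (grid d n).IsContained (colourClass G χ c)) ∧
        (G.edgeSet.ncard : ℝ) ≤ C * (n : ℝ) ^ ((d : ℝ) + ε) := by
  have hdR : (1:ℝ) ≤ d := by exact_mod_cast hd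
  obtain ⟨L, hL⟩ := exists_nat_gt (max 2 (4 * d / ε))
  have hL2R : (2:ℝ) < L := lt_of_le_of_lt (le_max_left _ _) hL
  have hL4 : 4 * d / ε < L := lt_of_le_of_lt (le_max_right _ _) hL
  have hL2 : 2 ≤ L := by
    have : 2 < L := by exact_mod_cast hL2R
    omega
  have hs0 : 0 < (L - 1) * L ^ (d - 1) := Nat.mul_pos (by omega) (Nat.pow_pos (by omega))
  have hpow : L ^ d = L * L ^ (d - 1) := by
    rw [← pow_succ']; congr 1; omega
  have hsβ : (L - 1) * L ^ (d - 1) < L ^ d + 1 := by
    rw [hpow]
    have : (L - 1) * L ^ (d - 1) ≤ L * L ^ (d - 1) := Nat.mul_le_mul_right _ (by omega)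
    omega
  obtain ⟨C, hC⟩ := host_gen host_all embed_all r (2 * d) (L ^ d + 1) ((L - 1) * L ^ (d - 1))
    (L ^ d) hr hs0 hsβ (Nat.pow_pos (by omega)) (ε / (2 * d)) (by positivity)
  refine ⟨|C|, fun n hn => ?_⟩
  obtain ⟨m, Q, G, hG1, hG2⟩ := hC (n ^ d) (Nat.one_le_pow _ _ hn)
  have e : Fin (n ^ d) ≃ (Fin d → Fin n) :=
    Fintype.equivOfCardEq (by simp)
  refine ⟨Fin Q × Fin m, inferInstance, G, fun χ => ?_, ?_⟩
  · obtain ⟨f, hf, hcopy⟩ := copy_of_sym (n := n ^ d) (by omega : 0 < r) G χ
    obtain ⟨c, hc⟩ := hG2 f hf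
    refine ⟨c, ?_⟩
    obtain ⟨g, hg, hE⟩ := hc ((grid d n).comap e) (maxDeg_equiv e _ _ (grid_maxDeg d n))
      (hasCover_equiv e _ _ _ _ (grid_cover d n L hL2))
    obtain ⟨⟨φ, hφ⟩⟩ := hcopy c _ g hg hE
    refine ⟨⟨⟨fun v => φ (e.symm v), ?_⟩, fun a b hab => e.symm.injective (hφ hab)⟩⟩
    intro u v huv
    apply φ.map_rel
    simpa using huv
  · have hnR : (1:ℝ) ≤ n := by exact_mod_cast hn
    have h1 : (G.edgeSet.ncard : ℝ) ≤ C * ((n ^ d : ℕ) : ℝ) ^
        (2 - (((L - 1) * L ^ (d - 1) : ℕ) : ℝ) / ((L ^ d + 1 : ℕ) : ℝ) + ε / (2 * d)) := by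
      refine le_trans ?_ hG1
      exact_mod_cast edges_le G
    refine le_trans h1 ?_
    refine le_trans (mul_le_mul_of_nonneg_right (le_abs_self C) (by positivity)) ?_
    apply mul_le_mul_of_nonneg_left _ (abs_nonneg C)
    push_cast
    rw [← Real.rpow_natCast, ← Real.rpow_mul (by positivity)]
    apply Real.rpow_le_rpow_of_exponent_le hnR
    have hLp : (0:ℝ) < (L:ℝ) ^ (d - 1) := by positivity
    have hLp1 : (1:ℝ) ≤ (L:ℝ) ^ (d - 1) := one_le_pow₀ (by linarith)
    have hpowR : (L:ℝ) ^ d = L * (L:ℝ) ^ (d - 1) := by exact_mod_cast hpow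
    have hcast : (((L - 1 : ℕ) : ℝ)) = (L:ℝ) - 1 := by
      rw [Nat.cast_sub (by omega)]; norm_num
    rw [hcast]
    have key : 1 - 2 / (L:ℝ) ≤ ((L:ℝ) - 1) * (L:ℝ) ^ (d - 1) / ((L:ℝ) ^ d + 1) := by
      rw [le_div_iff₀ (by positivity), hpowR]
      have e3 : (1 - 2 / (L:ℝ)) * (L * (L:ℝ) ^ (d - 1) + 1) =
          (L * (L:ℝ) ^ (d - 1) - 2 * (L:ℝ) ^ (d - 1)) + (1 - 2 / (L:ℝ)) := by
        field_simp
      rw [e3]
      have : 0 < 2 / (L:ℝ) := by positivity
      nlinarith
    have hLε : (d : ℝ) * (2 / (L:ℝ)) ≤ ε / 2 := by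
      rw [div_lt_iff₀ hε] at hL4
      rw [mul_div_assoc', div_le_div_iff₀ (by positivity) (by norm_num)]
      linarith
    have e4 : (d : ℝ) * (ε / (2 * d)) = ε / 2 := by field_simp
    calc (d : ℝ) * (2 - ((L:ℝ) - 1) * (L:ℝ) ^ (d - 1) / ((L:ℝ) ^ d + 1) + ε / (2 * d))
        ≤ d * (2 - (1 - 2 / (L:ℝ)) + ε / (2 * d)) := by
          apply mul_le_mul_of_nonneg_left _ (by linarith)
          linarith
      _ = d + d * (2 / (L:ℝ)) + d * (ε / (2 * d)) := by ring
      _ ≤ d + ε := by rw [e4]; linarith

end Pool.Agent.Helper34.PU
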